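import Mathlib

/-!
# Relatively hyperbolic groups (Osin): definitions and twisted extensions
-/

set_option autoImplicit false

namespace Pool.Agent.H599R3.RH

variable {G : Type} [Group G] {ι : Type}

/-- the free product of the subgroups `H i` and of the free group on `X` -/
abbrev FP (H : ι → Subgroup G) (X : Set G) : Type :=
  Monoid.Coprod (Monoid.CoprodI fun i => H i) (FreeGroup X)

/-- the natural homomorphism onto the group -/
def nat (H : ι → Subgroup G) (X : Set G) : FP H X →* G :=
  Monoid.Coprod.lift (Monoid.CoprodI.lift fun i => (H i).subtype) (FreeGroup.lift fun x => (x : G))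

/-- letters: elements of `X`, their inverses, elements of the subgroups `H i` -/
abbrev Letter (H : ι → Subgroup G) (X : Set G) : Type := (X × Bool) ⊕ (Σ i, H i)

variable {H : ι → Subgroup G} {X : Set G}

/-- value of a letter in the free product -/
def lv : Letter H X → FP H X
  | .inl (x, b) => Monoid.Coprod.inr (if b then FreeGroup.of x else (FreeGroup.of x)⁻¹)
  | .inr ⟨i, h⟩ => Monoid.Coprod.inl (Monoid.CoprodI.of (M := fun i => H i) (i := i) h)

/-- value of a word -/
def wv (l : List (Letter H X)) : FP H X := (l.map lv).prod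

/-- `x` is a product of at most `k` conjugates of elements of `R` and their inverses -/
def AreaLE (R : Set (FP H X)) (x : FP H X) (k : ℕ) : Prop :=
  ∃ l : List (FP H X × FP H X), l.length ≤ k ∧ (∀ p ∈ l, p.2 ∈ R ∨ p.2⁻¹ ∈ R) ∧
    (l.map fun p => p.1 * p.2 * p.1⁻¹).prod = x

/-- `G` is hyperbolic relative to the subgroups `H i` (Osin): there is a finite relative
presentation with linear relative Dehn function. -/
def IsHypRel (H : ι → Subgroup G) : Prop :=
  ∃ X : Set G, X.Finite ∧ Function.Surjective (nat H X) ∧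
    ∃ R : Set (FP H X), R.Finite ∧ Subgroup.normalClosure R = (nat H X).ker ∧
      ∃ C : ℕ, ∀ l : List (Letter H X), nat H X (wv l) = 1 → AreaLE R (wv l) (C * l.length)

/-! ### words -/

@[simp] theorem wv_nil : wv ([] : List (Letter H X)) = 1 := rfl
@[simp] theorem wv_cons (a : Letter H X) (l : List (Letter H X)) : wv (a :: l) = lv a * wv l := by
  simp [wv]
@[simp] theorem wv_append (l m : List (Letter H X)) : wv (l ++ m) = wv l * wv m := by
  simp [wv]

/-- inverse letter -/
def li : Letter H X → Letter H X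
  | .inl (x, b) => .inl (x, !b)
  | .inr ⟨i, h⟩ => .inr ⟨i, h⁻¹⟩

theorem lv_li (a : Letter H X) : lv (li a) = (lv a)⁻¹ := by
  rcases a with ⟨x, b⟩ | ⟨i, h⟩
  · cases b <;> simp [li, lv]
  · simp [li, lv]

/-- inverse word -/
def wi (l : List (Letter H X)) : List (Letter H X) := (l.map li).reverse

theorem wv_wi (l : List (Letter H X)) : wv (wi l) = (wv l)⁻¹ := by
  induction l with
  | nil => simp [wi]
  | cons a l ih =>
    have : wi (a :: l) = wi l ++ [li a] := by simp [wi]
    rw [this, wv_append, ih, wv_cons, wv_cons, wv_nil, mul_one, lv_li, mul_inv_rev]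

theorem length_wi (l : List (Letter H X)) : (wi l).length = l.length := by simp [wi]

theorem exists_wv (z : FP H X) : ∃ l, wv l = z := by
  have hmul : ∀ x y : FP H X, (∃ l, wv l = x) → (∃ l, wv l = y) → ∃ l, wv l = x * y := by
    rintro _ _ ⟨l, rfl⟩ ⟨m, rfl⟩
    exact ⟨l ++ m, wv_append l m⟩
  induction z using Monoid.Coprod.induction_on with
  | inl m =>
    induction m using Monoid.CoprodI.induction_on with
    | one => exact ⟨[], by simp⟩
    | of i m => exact ⟨[.inr ⟨i, m⟩], by simp [lv]⟩
    | mul x y hx hy => rw [map_mul]; exact hmul _ _ hx hy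
  | inr n =>
    induction n using FreeGroup.induction_on with
    | C1 => exact ⟨[], by simp⟩
    | of x => exact ⟨[.inl (x, true)], by simp [lv]⟩
    | inv_of x _ => exact ⟨[.inl (x, false)], by simp [lv]⟩
    | mul x y hx hy => rw [map_mul]; exact hmul _ _ hx hy
  | mul x y hx hy => exact hmul _ _ hx hy

theorem nat_inl (x : X) (b : Bool) :
    nat H X (lv (.inl (x, b))) = if b then (x : G) else (x : G)⁻¹ := by
  cases b <;> simp [lv, nat]

theorem nat_inr (i : ι) (h : H i) : nat H X (lv (.inr ⟨i, h⟩)) = (h : G) := by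
  simp [lv, nat]

/-! ### extensions -/

section Ext

variable {M : Type} [AddCommGroup M]

/-- normalised 2-cocycles -/
structure Coc (ρ : Representation ℤ G M) where
  f : G → G → M
  coc : ∀ a b c, f a b + f (a * b) c = ρ a (f b c) + f a (b * c)
  one_left : ∀ g, f 1 g = 0

variable {ρ : Representation ℤ G M}

theorem Coc.one_right (c : Coc ρ) (g : G) : c.f g 1 = 0 := by
  have h := c.coc g 1 1
  rw [c.one_left, map_zero, mul_one, zero_add, mul_one] at h
  exact left_eq_add.1 h.symm |>.symm ▸ rfl

/-- the extension defined by a cocycle -/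
@[ext] structure Ext (c : Coc ρ) where
  m : M
  g : G

variable {c : Coc ρ}

instance : Mul (Ext c) := ⟨fun a b => ⟨a.m + ρ a.g b.m + c.f a.g b.g, a.g * b.g⟩⟩
instance : One (Ext c) := ⟨⟨0, 1⟩⟩
instance : Inv (Ext c) := ⟨fun a => ⟨-(ρ a.g⁻¹ a.m) - c.f a.g⁻¹ a.g, a.g⁻¹⟩⟩

theorem mul_m (a b : Ext c) : (a * b).m = a.m + ρ a.g b.m + c.f a.g b.g := rfl
theorem mul_g (a b : Ext c) : (a * b).g = a.g * b.g := rfl
theorem one_m : (1 : Ext c).m = 0 := rfl
theorem one_g : (1 : Ext c).g = 1 := rfl
theorem inv_m (a : Ext c) : (a⁻¹).m = -(ρ a.g⁻¹ a.m) - c.f a.g⁻¹ a.g := rfl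
theorem inv_g (a : Ext c) : (a⁻¹).g = a.g⁻¹ := rfl

instance : Group (Ext c) :=
  Group.ofLeftAxioms
    (by
      intro a b d
      ext1
      · simp only [mul_m, mul_g, map_add]
        have h := c.coc a.g b.g d.g
        have h2 : ρ (a.g * b.g) d.m = ρ a.g (ρ b.g d.m) := by rw [map_mul]; rfl
        rw [h2]
        calc a.m + ρ a.g b.m + c.f a.g b.g + ρ a.g (ρ b.g d.m) + c.f (a.g * b.g) d.g
            = a.m + ρ a.g b.m + ρ a.g (ρ b.g d.m) + (c.f a.g b.g + c.f (a.g * b.g) d.g) := by abel
          _ = _ := by rw [h]; abel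
      · simp only [mul_g, mul_assoc])
    (by
      intro a
      ext1
      · simp only [mul_m, one_m, one_g, map_one, c.one_left]
        simp
      · simp only [mul_g, one_g, one_mul])
    (by
      intro a
      ext1
      · simp only [mul_m, inv_m, inv_g, one_m]
        abel
      · simp only [mul_g, inv_g, one_g, inv_mul_cancel])

/-- projection -/
def prj (c : Coc ρ) : Ext c →* G where
  toFun := Ext.g
  map_one' := rfl
  map_mul' _ _ := rfl

theorem ker_mul {a b : Ext c} (ha : a.g = 1) : (a * b).m = a.m + b.m := by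
  rw [mul_m, ha, c.one_left, map_one]
  simp

theorem ker_inv {a : Ext c} (ha : a.g = 1) : (a⁻¹).m = - a.m := by
  rw [inv_m, ha, inv_one, c.one_left, map_one]
  simp

theorem ker_conj {a : Ext c} (ha : a.g = 1) (x : Ext c) : (x * a * x⁻¹).m = ρ x.g a.m := by
  have h : x * a = ⟨ρ x.g a.m, 1⟩ * x := by
    ext1
    · simp only [mul_m, ha, c.one_right, c.one_left, map_one, add_zero]
      rw [add_comm]
      rfl
    · simp only [mul_g, ha, mul_one, one_mul]
  rw [h, mul_inv_cancel_right]

/-- the general estimate: norm against relative area -/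
theorem area_bound {R : Set (FP H X)} {φ : FP H X →* Ext c} (hφ : ∀ z, (φ z).g = nat H X z)
    (hR : ∀ r ∈ R, nat H X r = 1) {ν : M → ℕ} (h0 : ν 0 = 0)
    (ha : ∀ m m', ν (m + m') ≤ ν m + ν m') (hn : ∀ m, ν (-m) = ν m) {K : ℕ}
    (hK : ∀ r ∈ R, ∀ g, ν (ρ g (φ r).m) ≤ K) {z : FP H X} {k : ℕ} (h : AreaLE R z k) :
    ν (φ z).m ≤ K * k := by
  obtain ⟨l, h1, h2, h3⟩ := h
  have key : ∀ l : List (FP H X × FP H X), (∀ p ∈ l, p.2 ∈ R ∨ p.2⁻¹ ∈ R) →
      (φ (l.map fun p => p.1 * p.2 * p.1⁻¹).prod).g = 1 ∧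
      ν (φ (l.map fun p => p.1 * p.2 * p.1⁻¹).prod).m ≤ K * l.length := by
    intro l
    induction l with
    | nil => intro _; simp [one_m, one_g, h0]
    | cons p l ih =>
      intro hl
      obtain ⟨i1, i2⟩ := ih (fun q hq => hl q (List.mem_cons_of_mem _ hq))
      have hp : nat H X p.2 = 1 := by
        rcases hl p (by simp) with h | h
        · exact hR _ h
        · have := hR _ h
          rw [map_inv, inv_eq_one] at this
          exact this
      have hg2 : (φ p.2).g = 1 := by rw [hφ, hp]
      have hg : (φ (p.1 * p.2 * p.1⁻¹)).g = 1 := by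
        rw [hφ, map_mul, map_mul, hp, map_inv]; simp
      have hm : ν (φ (p.1 * p.2 * p.1⁻¹)).m ≤ K := by
        rw [map_mul, map_mul, map_inv, ker_conj hg2]
        rcases hl p (by simp) with h | h
        · exact hK _ h _
        · have h4 := hK _ h (φ p.1).g
          rw [map_inv, ker_inv hg2, map_neg, hn] at h4
          exact h4
      rw [List.map_cons, List.prod_cons, map_mul]
      refine ⟨by rw [mul_g, hg, i1, one_mul], ?_⟩
      rw [ker_mul hg, List.length_cons, Nat.mul_succ]
      have := ha (φ (p.1 * p.2 * p.1⁻¹)).m (φ (l.map fun p => p.1 * p.2 * p.1⁻¹).prod).m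
      omega
  have := (key l h2).2
  rw [h3] at this
  exact this.trans (Nat.mul_le_mul_left _ h1)

end Ext

end Pool.Agent.H599R3.RH
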