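import Pool.Agent.H599R3.RH.Hy
import Pool.Agent.H599R3.RH.Def

/-!
# The area argument
-/

set_option autoImplicit false

namespace Pool.Agent.H599R3.RH

open H540DG

section lift

variable {G : Type} [Group G] {ι : Type} {M : Type} [AddCommGroup M]
  {ρ : Representation ℤ G M}

theorem exists_split_hom (c : Coc ρ) (S : Subgroup G) (hv : Van S 1) :
    ∃ s : S →* Ext c, ∀ x, (s x).g = x := by
  have hcoc := c.coc
  obtain ⟨h, hh⟩ := hv M (ρ.comp S.subtype) (fun x : Fin 2 → S => c.f (x 0) (x 1)) (by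
    funext g
    have h1 := hcoc (g 0) (g 1) (g 2)
    have hs3 : ∀ F : Fin (1 + 1 + 1) → M, ∑ j, F j = F 0 + F 1 + F 2 :=
      fun F => Fin.sum_univ_three F
    simp only [cobd, MonoidHom.comp_apply, Subgroup.coe_subtype, Pi.zero_apply]
    rw [hs3]
    simp [Fin.contractNth]
    have h2 : c.f ↑(g 0) ↑(g 1) + c.f (↑(g 0) * ↑(g 1)) ↑(g 2) =
      (ρ ↑(g 0)) (c.f ↑(g 1) ↑(g 2)) + c.f (↑(g 0)) (↑(g 1) * ↑(g 2)) := h1
    have h3 : (ρ ↑(g 0)) (c.f ↑(g 1) ↑(g 2)) = c.f ↑(g 0) ↑(g 1) + c.f (↑(g 0) * ↑(g 1)) ↑(g 2) -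
      c.f (↑(g 0)) (↑(g 1) * ↑(g 2)) := by rw [h2]; abel
    rw [h3]
    abel)
  have key : ∀ x y : S, c.f x y = ρ x (h (fun _ => y)) - h (fun _ => x * y) + h (fun _ => x) := by
    intro x y
    have h1 := congrFun hh ![x, y]
    have hs2 : ∀ F : Fin (1 + 1) → M, ∑ j, F j = F 0 + F 1 := fun F => Fin.sum_univ_two F
    simp only [cobd, MonoidHom.comp_apply, Subgroup.coe_subtype] at h1
    rw [hs2] at h1
    have e1 : (Fin.contractNth (0 : Fin 2) (· * ·) ![x, y] : Fin 1 → S) = fun _ => x * y := by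
      funext i
      have : i = 0 := Subsingleton.elim _ _
      subst this
      simp [Fin.contractNth]
    have e2 : (Fin.contractNth (1 : Fin 2) (· * ·) ![x, y] : Fin 1 → S) = fun _ => x := by
      funext i
      have : i = 0 := Subsingleton.elim _ _
      subst this
      simp [Fin.contractNth]
    have e3 : (fun i : Fin 1 => (![x, y] : Fin 2 → S) i.succ) = fun _ => y := by
      funext i
      have : i = 0 := Subsingleton.elim _ _
      subst this
      simp
    rw [e1, e2, e3] at h1
    simp at h1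
    rw [← h1]
    abel
  refine ⟨MonoidHom.mk' (fun x => ⟨- h (fun _ => x), x⟩) ?_, fun x => rfl⟩
  intro x y
  apply Ext.ext
  · simp only [mul_m, map_neg]
    rw [key x y]
    abel
  · simp [mul_g]

theorem exists_lift (c : Coc ρ) {H : ι → Subgroup G} (X : Set G) (hv : ∀ i, Van (H i) 1) :
    ∃ φ : FP H X →* Ext c, ∀ z, (φ z).g = nat H X z := by
  choose s hs using fun i => exists_split_hom c (H i) (hv i)
  let φ : FP H X →* Ext c :=
    Monoid.Coprod.lift (Monoid.CoprodI.lift s) (FreeGroup.lift fun x => (⟨0, (x : G)⟩ : Ext c))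
  refine ⟨φ, ?_⟩
  have h1 : (prj c).comp φ = nat H X := by
    apply Monoid.Coprod.hom_ext
    · apply Monoid.CoprodI.ext_hom
      intro i
      ext x
      simp only [φ, nat, MonoidHom.comp_apply, Monoid.Coprod.lift_apply_inl,
        Monoid.CoprodI.lift_of]
      exact hs i x
    · ext x
      simp only [φ, nat, MonoidHom.comp_apply, Monoid.Coprod.lift_apply_inr,
        FreeGroup.lift_apply_of]
      rfl
  intro z
  exact DFunLike.congr_fun h1 z

/-- a representation from an additive action -/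
def repOf (a : G → M →+ M) (h1 : a 1 = AddMonoidHom.id M)
    (hm : ∀ g h, a (g * h) = (a g).comp (a h)) : Representation ℤ G M where
  toFun g := (a g).toIntLinearMap
  map_one' := by rw [h1]; rfl
  map_mul' g h := by rw [hm]; rfl

end lift

/-! ### tensors -/

section tens

variable {α β : Type}

/-- the tensor product of two functions -/
noncomputable def tens (f : α →₀ ℤ) (h : β →₀ ℤ) : α × β →₀ ℤ :=
  Finsupp.onFinset (f.support ×ˢ h.support) (fun z => f z.1 * h z.2) (by
    intro z hz
    rw [Finset.mem_product, Finsupp.mem_support_iff, Finsupp.mem_support_iff]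
    exact ⟨left_ne_zero_of_mul hz, right_ne_zero_of_mul hz⟩)

theorem tens_apply (f : α →₀ ℤ) (h : β →₀ ℤ) (z : α × β) : tens f h z = f z.1 * h z.2 := rfl

theorem nm_tens (f : α →₀ ℤ) (h : β →₀ ℤ) : nm (tens f h) = nm f * nm h := by
  classical
  rw [nm_of_subset (f := tens f h) (s := f.support ×ˢ h.support)]
  · unfold nm
    rw [Finset.sum_mul_sum, Finset.sum_product]
    apply Finset.sum_congr rfl
    intro a _
    apply Finset.sum_congr rfl
    intro b _
    rw [tens_apply, Int.natAbs_mul]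
  · exact Finsupp.support_onFinset_subset

open Classical in
theorem nm_filter (Y : α → Prop) (f : α →₀ ℤ) : nm (f.filter Y) ≤ nm f := by
  rw [nm_of_subset (f := f.filter Y) (s := f.support)]
  · unfold nm
    apply Finset.sum_le_sum
    intro a _
    by_cases h : Y a
    · rw [Finsupp.filter_apply_pos _ _ h]
    · rw [Finsupp.filter_apply_neg _ _ h]; simp
  · rw [Finsupp.support_filter]
    exact Finset.filter_subset _ _

end tens

section

variable {G : Type} [Group G] {A : Type} {P : Pres A}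

/-- action on pairs -/
noncomputable def pa (k : U P) : (Hyp P × Hyp P →₀ ℤ) →+ (Hyp P × Hyp P →₀ ℤ) :=
  Finsupp.mapDomain.addMonoidHom (fun z => (k • z.1, k • z.2))

theorem pa_apply (k : U P) (f : Hyp P × Hyp P →₀ ℤ) (z : Hyp P × Hyp P) :
    pa k f z = f (k⁻¹ • z.1, k⁻¹ • z.2) := by
  have hinj : Function.Injective (fun z : Hyp P × Hyp P => (k • z.1, k • z.2)) := by
    rintro ⟨a, b⟩ ⟨c, d⟩ h
    simp only [Prod.mk.injEq] at h
    exact Prod.ext (smul_left_cancel k h.1) (smul_left_cancel k h.2)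
  have := Finsupp.mapDomain_apply hinj f (k⁻¹ • z.1, k⁻¹ • z.2)
  simp only [smul_inv_smul] at this
  exact this

theorem nm_pa (k : U P) (f : Hyp P × Hyp P →₀ ℤ) : nm (pa k f) ≤ nm f := nm_mapDomain _ f

/-- the representation on pairs -/
noncomputable def rho (ψ : G →* U P) : Representation ℤ G (Hyp P × Hyp P →₀ ℤ) :=
  repOf (fun g => pa (ψ g)) (by
    ext f z
    simp only [AddMonoidHom.comp_apply, Finsupp.singleAddHom_apply, AddMonoidHom.id_apply]
    rw [pa_apply, map_one, inv_one, one_smul, one_smul]) (by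
    intro g h
    refine AddMonoidHom.ext fun f => Finsupp.ext fun z => ?_
    rw [AddMonoidHom.comp_apply, pa_apply, pa_apply, pa_apply, map_mul, mul_inv_rev]
    simp only [mul_smul])

theorem rho_apply (ψ : G →* U P) (g : G) (f : Hyp P × Hyp P →₀ ℤ) : rho ψ g f = pa (ψ g) f := rfl

/-- the cup square of the crossing cocycle -/
noncomputable def om (ψ : G →* U P) : Coc (rho ψ) where
  f a b := tens (uu (ψ a)) (Finsupp.mapDomain ((ψ a) • ·) (uu (ψ b)))
  coc a b c := by
    refine Finsupp.ext fun z => ?_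
    rw [rho_apply, Finsupp.add_apply, Finsupp.add_apply, pa_apply]
    simp only [tens_apply, mapDomain_smul_apply, map_mul, uu_mul, Finsupp.add_apply,
      mul_inv_rev]
    simp only [mul_smul]
    ring
  one_left g := by
    refine Finsupp.ext fun z => ?_
    rw [tens_apply, map_one, uu_one]
    simp

theorem om_f (ψ : G →* U P) (a b : G) :
    (om ψ).f a b = tens (uu (ψ a)) (Finsupp.mapDomain ((ψ a) • ·) (uu (ψ b))) := rfl

/-- the pairs -/
def YY (c : ℚ) (z : Hyp P × Hyp P) : Prop := z.1.hi ≤ c ∧ c ≤ z.2.lo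

theorem YY_iff {c : ℚ} {k : U P} (hk : th k c = c) (z : Hyp P × Hyp P) :
    YY c (k⁻¹ • z.1, k⁻¹ • z.2) ↔ YY c z := by
  have h1 : th k⁻¹ c = c := by
    have : th k⁻¹ (th k c) = c := by
      rw [← RelIso.mul_apply, ← map_mul, inv_mul_cancel, map_one]; rfl
    rwa [hk] at this
  unfold YY
  simp only [hi_smul, lo_smul]
  constructor
  · rintro ⟨h2, h3⟩
    constructor
    · rw [← h1] at h2
      exact (th k⁻¹).le_iff_le.1 h2
    · rw [← h1] at h3
      exact (th k⁻¹).le_iff_le.1 h3
  · rintro ⟨h2, h3⟩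
    constructor
    · rw [← h1]
      exact (th k⁻¹).le_iff_le.2 h2
    · rw [← h1]
      exact (th k⁻¹).le_iff_le.2 h3

open Classical in
theorem filter_pa {c : ℚ} {k : U P} (hk : th k c = c) (f : Hyp P × Hyp P →₀ ℤ) :
    (pa k f).filter (YY c) = pa k (f.filter (YY c)) := by
  ext z
  rw [pa_apply]
  by_cases h : YY c z
  · rw [Finsupp.filter_apply_pos _ _ h, pa_apply,
      Finsupp.filter_apply_pos _ _ ((YY_iff hk z).2 h)]
  · rw [Finsupp.filter_apply_neg _ _ h,
      Finsupp.filter_apply_neg _ _ (fun h' => h ((YY_iff hk z).1 h'))]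

end

end Pool.Agent.H599R3.RH
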