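import Pool.Agent.H599R3.RH.Ar

/-!
# The area argument: conclusion
-/

set_option autoImplicit false

namespace Pool.Agent.H599R3.RH

open H540DG

variable {G : Type} [Group G] {ι : Type} {A : Type} {P : Pres A}

/-- repeated word -/
def rw' {X : Set G} {H : ι → Subgroup G} (n : ℕ) (l : List (Letter H X)) : List (Letter H X) :=
  (List.replicate n l).flatten

theorem wv_rw' {X : Set G} {H : ι → Subgroup G} (n : ℕ) (l : List (Letter H X)) :
    wv (rw' n l) = wv l ^ n := by
  induction n with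
  | zero => simp [rw']
  | succ n ih =>
    have : rw' (n + 1) l = l ++ rw' n l := by simp [rw', List.replicate_succ]
    rw [this, wv_append, ih, pow_succ']

theorem length_rw' {X : Set G} {H : ι → Subgroup G} (n : ℕ) (l : List (Letter H X)) :
    (rw' n l).length = n * l.length := by
  simp [rw']

open Classical in
theorem pow_part (ψ : G →* U P) (c : ℚ) (a : G) (ha : th (ψ a) c = c)
    (h0 : ∀ n : ℕ, ((om ψ).f a (a ^ n)).filter (YY c) = 0) (x : Ext (om ψ)) (hx : x.g = a) (n : ℕ) :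
    (x ^ n).g = a ^ n ∧ nm ((x ^ n).m.filter (YY c)) ≤ n * nm x.m := by
  induction n with
  | zero =>
    refine ⟨by rw [pow_zero, pow_zero]; rfl, ?_⟩
    rw [pow_zero, one_m, Finsupp.filter_zero, nm_zero]
    exact Nat.zero_le _
  | succ n ih =>
    rw [pow_succ']
    refine ⟨by rw [mul_g, ih.1, hx, pow_succ'], ?_⟩
    rw [mul_m, hx, ih.1, Finsupp.filter_add, Finsupp.filter_add, h0, add_zero, rho_apply,
      filter_pa ha]
    refine (nm_add _ _).trans ?_
    have h1 := nm_filter (YY c) x.m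
    have h2 := nm_pa (ψ a) ((x ^ n).m.filter (YY c))
    have h3 := ih.2
    rw [Nat.succ_mul]
    omega

theorem area_contra {H : ι → Subgroup G} (hH : IsHypRel H) (hv : ∀ i, Van (H i) 1)
    (ψ : G →* U P) (a b : G) (hab : a * b = b * a) (p s : List A) (α β : U P)
    (hα : Pi p α p) (hα1 : α ≠ 1) (hβ : Pi s β s) (hβ1 : β ≠ 1)
    (ha : ψ a = wh [] s α) (hb : ψ b = wh p [] β) : False := by
  classical
  obtain ⟨X, -, hsurj, R, hR, hker, C, hC⟩ := hH
  obtain ⟨φ, hφ⟩ := exists_lift (om ψ) X hv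
  obtain ⟨za, hza⟩ := hsurj a
  obtain ⟨zb, hzb⟩ := hsurj b
  obtain ⟨la, rfl⟩ := exists_wv za
  obtain ⟨lb, rfl⟩ := exists_wv zb
  -- the constant
  obtain ⟨K, hK⟩ : ∃ K : ℕ, ∀ r ∈ R, nm (φ r).m ≤ K := by
    obtain ⟨K, hK⟩ := (hR.image (fun r => nm (φ r).m)).bddAbove
    exact ⟨K, fun r hr => hK ⟨r, hr, rfl⟩⟩
  have hR1 : ∀ r ∈ R, nat H X r = 1 := by
    intro r hr
    rw [← MonoidHom.mem_ker, ← hker]
    exact Subgroup.subset_normalClosure hr
  have hK' : ∀ r ∈ R, ∀ g, nm ((rho ψ) g (φ r).m) ≤ K := by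
    intro r hr g
    rw [rho_apply]
    exact (nm_pa _ _).trans (hK r hr)
  -- positions
  set c : ℚ := (p.length : ℚ) with hc
  have hapow : ∀ n : ℕ, ψ (a ^ n) = wh [] s (α ^ n) := by
    intro n; rw [map_pow, map_pow, ha]
  have hbpow : ∀ n : ℕ, ψ (b ^ n) = wh p [] (β ^ n) := by
    intro n; rw [map_pow, map_pow, hb]
  have hαp : ∀ n : ℕ, Pi p (α ^ n) p := fun n => (Dg P p).pow_mem (x := α) hα n
  have hβp : ∀ n : ℕ, Pi s (β ^ n) s := fun n => (Dg P s).pow_mem (x := β) hβ n
  have htha : ∀ n : ℕ, th (ψ (a ^ n)) c = c := by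
    intro n
    rw [hapow, th_wh_right]
    have := (hαp n).th (t := 0) le_rfl
    simpa using this
  have hthb : ∀ n : ℕ, th (ψ (b ^ n)) c = c := by
    intro n
    rw [hbpow]
    exact th_wh_le p [] _ le_rfl
  have hua : ∀ (n : ℕ) (J : Hyp P), uu (ψ (a ^ n)) J ≠ 0 → J.hi ≤ c := by
    intro n J hJ
    rw [hapow] at hJ
    have := cross_left J (hαp n) s 1 (by
      rw [one_mul]
      intro h
      apply hJ
      rw [uu_apply, h, sub_self])
    simpa using this
  have hub : ∀ (n : ℕ) (J : Hyp P), uu (ψ (b ^ n)) J ≠ 0 → c ≤ J.lo := by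
    intro n J hJ
    rw [hbpow] at hJ
    have := cross_right J p (β ^ n) 1 (by
      rw [one_mul]
      intro h
      apply hJ
      rw [uu_apply, h, sub_self])
    simpa using this
  have hinv : ∀ (k : U P) (_ : th k c = c) (J : Hyp P), c ≤ J.lo → c ≤ (k⁻¹ • J).lo := by
    intro k hk J hJ
    have h1 : th k⁻¹ c = c := by
      have : th k⁻¹ (th k c) = c := by
        rw [← RelIso.mul_apply, ← map_mul, inv_mul_cancel, map_one]; rfl
      rwa [hk] at this
    rw [lo_smul, ← h1]
    exact (th k⁻¹).le_iff_le.2 hJ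
  -- vanishing
  have hzero : ∀ (x y : G), th (ψ x) c = c →
      ((∀ J : Hyp P, uu (ψ x) J ≠ 0 → c ≤ J.lo) ∨ (∀ J : Hyp P, uu (ψ y) J ≠ 0 → J.hi ≤ c)) →
      ((om ψ).f x y).filter (YY c) = 0 := by
    intro x y hx h
    ext z
    by_cases hz : YY c z
    · rw [Finsupp.filter_apply_pos _ _ hz, om_f, tens_apply, mapDomain_smul_apply,
        Finsupp.coe_zero, Pi.zero_apply]
      rcases h with h | h
      · by_contra hcon
        have h1 := h _ (left_ne_zero_of_mul hcon)
        exact absurd z.1.lt (not_lt.2 (hz.1.trans h1))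
      · by_contra hcon
        have h1 := h _ (right_ne_zero_of_mul hcon)
        have h2 := hinv _ hx z.2 hz.2
        exact absurd ((ψ x)⁻¹ • z.2).lt (not_lt.2 (h1.trans h2))
    · rw [Finsupp.filter_apply_neg _ _ hz]; rfl
  have ha1 := htha 1
  have hb1 := hthb 1
  have hub1 := hub 1
  rw [pow_one] at ha1 hb1 hub1
  have hgoal : ∀ n : ℕ, n * n ≤ K * (C * (2 * (n * la.length + n * lb.length))) +
      2 * (n * nm (φ (wv la)).m + n * nm (φ (wv lb)).m) := by
    intro n
    obtain ⟨xg, xm⟩ := pow_part ψ c a ha1 (fun k => hzero a (a ^ k) ha1 (Or.inr (hua k)))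
      (φ (wv la)) (by rw [hφ, hza]) n
    obtain ⟨yg, ym⟩ := pow_part ψ c b hb1 (fun k => hzero b (b ^ k) hb1 (Or.inl hub1))
      (φ (wv lb)) (by rw [hφ, hzb]) n
    set x := φ (wv la) ^ n with hx
    set y := φ (wv lb) ^ n with hy
    have hcomm : a ^ n * b ^ n = b ^ n * a ^ n := by
      have h1 : Commute a b := hab
      exact (h1.pow_pow n n)
    set l := rw' n la ++ (rw' n lb ++ (wi (rw' n la) ++ wi (rw' n lb))) with hl
    have hlen : l.length = 2 * (n * la.length + n * lb.length) := by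
      rw [hl]
      simp only [List.length_append, length_wi, length_rw']
      ring
    have hval : φ (wv l) = x * (y * (x⁻¹ * y⁻¹)) := by
      rw [hl]
      simp only [wv_append, wv_wi, wv_rw', map_mul, map_inv, map_pow]
      rfl
    have hval1 : (φ (wv l)).g = 1 := by
      rw [hval]
      simp only [mul_g, inv_g, xg, yg]
      rw [← mul_assoc, hcomm]
      group
    have hnat : nat H X (wv l) = 1 := by rw [← hφ, hval1]
    have harea := area_bound (ν := nm) hφ hR1 nm_zero nm_add nm_neg hK' (hC l hnat)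
    rw [hlen] at harea
    have heq : φ (wv l) * (y * x) = x * y := by
      rw [hval]; group
    have hm := congrArg Ext.m heq
    rw [ker_mul hval1, mul_m, mul_m, xg, yg] at hm
    -- the main term
    have hmain : (om ψ).f (a ^ n) (b ^ n) = (φ (wv l)).m +
        (y.m + rho ψ (b ^ n) x.m + (om ψ).f (b ^ n) (a ^ n)) - x.m - rho ψ (a ^ n) y.m := by
      rw [hm]; abel
    have hfil := congrArg (fun f => nm (Finsupp.filter (YY c) f)) hmain
    rw [Finsupp.filter_sub, Finsupp.filter_sub, Finsupp.filter_add, Finsupp.filter_add,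
      Finsupp.filter_add, hzero (b ^ n) (a ^ n) (hthb n) (Or.inl (hub n)), add_zero,
      rho_apply, rho_apply, filter_pa (hthb n), filter_pa (htha n)] at hfil
    -- lower bound
    have hlow : n * n ≤ nm (((om ψ).f (a ^ n) (b ^ n)).filter (YY c)) := by
      have hself : ((om ψ).f (a ^ n) (b ^ n)).filter (YY c) = (om ψ).f (a ^ n) (b ^ n) := by
        rw [Finsupp.filter_eq_self_iff]
        intro z hz
        rw [om_f, tens_apply, mapDomain_smul_apply] at hz
        have h1 := hua n _ (left_ne_zero_of_mul hz)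
        have h2 := hub n _ (right_ne_zero_of_mul hz)
        refine ⟨h1, ?_⟩
        rw [lo_smul] at h2
        have h3 : th (ψ (a ^ n)) c ≤ th (ψ (a ^ n)) (th (ψ (a ^ n))⁻¹ z.2.lo) :=
          (th (ψ (a ^ n))).le_iff_le.2 h2
        rw [htha, ← RelIso.mul_apply, ← map_mul, mul_inv_cancel, map_one] at h3
        exact h3
      rw [hself, om_f, nm_tens]
      have g1 : n ≤ nm (uu (ψ (a ^ n))) := by
        have h1 : Pi (p ++ s) (wh [] s α) (p ++ s) := by simpa using hα.wh [] s
        have h2 : wh [] s α ≠ 1 := fun h => hα1 (wh_right_inj s hα h)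
        have := growth h1 h2 n
        rwa [map_pow, ha]
      have g2 : n ≤ nm (Finsupp.mapDomain ((ψ (a ^ n)) • ·) (uu (ψ (b ^ n)))) := by
        have h1 : Pi (p ++ s) (wh p [] β) (p ++ s) := by simpa using hβ.wh p []
        have h2 : wh p [] β ≠ 1 := fun h => hβ1 (wh_left_inj p hβ h)
        have h3 := growth h1 h2 n
        have h4 := nm_mapDomain ((ψ (a ^ n))⁻¹ • ·)
          (Finsupp.mapDomain ((ψ (a ^ n)) • ·) (uu (ψ (b ^ n))))
        rw [← Finsupp.mapDomain_comp] at h4
        have h5 : ((fun x : Hyp P => (ψ (a ^ n))⁻¹ • x) ∘ fun x => ψ (a ^ n) • x) = id := by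
          funext J; simp
        rw [h5, Finsupp.mapDomain_id, map_pow ψ b, hb] at h4
        rw [map_pow ψ b, hb]
        exact h3.trans h4
      exact Nat.mul_le_mul g1 g2
    rw [hfil] at hlow
    have u1 := nm_sub (Finsupp.filter (YY c) (φ (wv l)).m + (Finsupp.filter (YY c) y.m +
      (pa (ψ (b ^ n))) (Finsupp.filter (YY c) x.m)) - Finsupp.filter (YY c) x.m)
      ((pa (ψ (a ^ n))) (Finsupp.filter (YY c) y.m))
    have u2 := nm_sub (Finsupp.filter (YY c) (φ (wv l)).m + (Finsupp.filter (YY c) y.m +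
      (pa (ψ (b ^ n))) (Finsupp.filter (YY c) x.m))) (Finsupp.filter (YY c) x.m)
    have u3 := nm_add (Finsupp.filter (YY c) (φ (wv l)).m) (Finsupp.filter (YY c) y.m +
      (pa (ψ (b ^ n))) (Finsupp.filter (YY c) x.m))
    have u4 := nm_add (Finsupp.filter (YY c) y.m) ((pa (ψ (b ^ n))) (Finsupp.filter (YY c) x.m))
    have u5 := nm_pa (ψ (b ^ n)) (Finsupp.filter (YY c) x.m)
    have u6 := nm_pa (ψ (a ^ n)) (Finsupp.filter (YY c) y.m)
    have u7 := nm_filter (YY c) (φ (wv l)).m
    omega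
  -- contradiction
  set D := K * (C * (2 * (la.length + lb.length))) +
    2 * (nm (φ (wv la)).m + nm (φ (wv lb)).m) with hD
  have h1 := hgoal (D + 1)
  have h2 : K * (C * (2 * ((D + 1) * la.length + (D + 1) * lb.length))) +
      2 * ((D + 1) * nm (φ (wv la)).m + (D + 1) * nm (φ (wv lb)).m) = (D + 1) * D := by
    conv_rhs => rw [hD]
    ring
  rw [h2] at h1
  have h3 := Nat.le_of_mul_le_mul_left h1 (Nat.succ_pos D)
  omega

end Pool.Agent.H599R3.RH
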