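import Mathlib

/-!
# Groups acting on trees, in functional form
-/

set_option autoImplicit false

namespace Pool.Agent.H599R3.RH

/-- a nontrivial free product decomposition -/
def Splits (G : Type) [Group G] : Prop :=
  ∃ (A B : Type) (_ : Group A) (_ : Group B), Nontrivial A ∧ Nontrivial B ∧
    Nonempty (G ≃* Monoid.Coprod A B)

/-! ### ping-pong for two subgroups -/

theorem three_le_card {G : Type} [Group G] (A : Subgroup G)
    (htf : ∀ g : G, g ≠ 1 → ∀ n : ℕ, n ≠ 0 → g ^ n ≠ 1) {a : G} (ha : a ∈ A) (h1 : a ≠ 1) :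
    3 ≤ Cardinal.mk A := by
  have hinf : Infinite A := by
    refine Infinite.of_injective (fun n : ℕ => (⟨a ^ n, A.pow_mem ha n⟩ : A)) ?_
    intro m n hmn
    have h2 : a ^ m = a ^ n := congrArg Subtype.val hmn
    by_contra hne
    rcases lt_or_gt_of_ne hne with h | h
    · apply htf a h1 (n - m) (by omega)
      have : a ^ n = a ^ (n - m) * a ^ m := by rw [← pow_add]; congr 1; omega
      rw [this] at h2
      exact (left_eq_mul₀' h2)
    · apply htf a h1 (m - n) (by omega)
      have : a ^ m = a ^ (m - n) * a ^ n := by rw [← pow_add]; congr 1; omega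
      rw [this] at h2
      exact (left_eq_mul₀' h2.symm)
  calc (3 : Cardinal) ≤ Cardinal.aleph0 := (Cardinal.natCast_lt_aleph0 (n := 3)).le
    _ ≤ _ := Cardinal.aleph0_le_mk A
where
  left_eq_mul₀' {x y : G} (h : y = x * y) : x = 1 := by
    have := congrArg (· * y⁻¹) h
    simpa using this.symm

theorem fp_of_pingpong {G : Type} [Group G] {α : Type} [MulAction G α] (A B : Subgroup G)
    (htf : ∀ g : G, g ≠ 1 → ∀ n : ℕ, n ≠ 0 → g ^ n ≠ 1)
    (hA : ∃ a ∈ A, a ≠ 1) (hB : ∃ b ∈ B, b ≠ 1) (hgen : A ⊔ B = ⊤) (X Y : α → Prop)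
    (hX : ∃ x, X x) (hY : ∃ y, Y y) (hd : ∀ x, X x → ¬ Y x)
    (h1 : ∀ a ∈ A, a ≠ 1 → ∀ y, Y y → X (a • y))
    (h2 : ∀ b ∈ B, b ≠ 1 → ∀ x, X x → Y (b • x)) : Splits G := by
  let K : Bool → Subgroup G := fun b => if b then A else B
  let f : ∀ b, K b →* G := fun b => (K b).subtype
  have hinj : Function.Injective (Monoid.CoprodI.lift f) := by
    refine Monoid.CoprodI.lift_injective_of_ping_pong f (Or.inr ⟨true, ?_⟩)
      (fun b => {x | if b then X x else Y x}) ?_ ?_ ?_
    · obtain ⟨a, ha, ha1⟩ := hA
      exact three_le_card A htf ha ha1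
    · intro b
      cases b
      · exact hY
      · exact hX
    · intro b b' hbb
      cases b <;> cases b'
      · exact absurd rfl hbb
      · rw [Function.onFun, Set.disjoint_left]
        intro x hx hx'
        exact hd x hx' hx
      · rw [Function.onFun, Set.disjoint_left]
        intro x hx hx'
        exact hd x hx hx'
      · exact absurd rfl hbb
    · intro b b' hbb h hh
      cases b <;> cases b'
      · exact absurd rfl hbb
      · rintro _ ⟨x, hx, rfl⟩
        exact h2 h.1 h.2 (fun h0 => hh (Subtype.ext h0)) x hx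
      · rintro _ ⟨x, hx, rfl⟩
        exact h1 h.1 h.2 (fun h0 => hh (Subtype.ext h0)) x hx
      · exact absurd rfl hbb
  let F : Monoid.Coprod A B →* G := Monoid.Coprod.lift A.subtype B.subtype
  let j : Monoid.Coprod A B →* Monoid.CoprodI (fun b => K b) :=
    Monoid.Coprod.lift (Monoid.CoprodI.of (M := fun b => K b) (i := true))
      (Monoid.CoprodI.of (M := fun b => K b) (i := false))
  let k : Monoid.CoprodI (fun b => K b) →* Monoid.Coprod A B :=
    Monoid.CoprodI.lift (fun b => match b with
      | true => Monoid.Coprod.inl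
      | false => Monoid.Coprod.inr)
  have hkj : k.comp j = MonoidHom.id _ := by
    apply Monoid.Coprod.hom_ext
    · ext x; simp [k, j]
    · ext x; simp [k, j]
  have hF : F = (Monoid.CoprodI.lift f).comp j := by
    apply Monoid.Coprod.hom_ext
    · ext x; simp [F, j, f]
    · ext x; simp [F, j, f]
  have hFi : Function.Injective F := by
    intro x y hxy
    rw [hF] at hxy
    have h3 : j x = j y := hinj hxy
    have h4 := congrArg k h3
    have h5 : ∀ z, k (j z) = z := fun z => DFunLike.congr_fun hkj z
    rwa [h5, h5] at h4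
  have hFs : Function.Surjective F := by
    rw [← MonoidHom.range_eq_top, eq_top_iff, ← hgen]
    apply sup_le
    · intro a ha
      exact ⟨Monoid.Coprod.inl ⟨a, ha⟩, by simp [F]⟩
    · intro b hb
      exact ⟨Monoid.Coprod.inr ⟨b, hb⟩, by simp [F]⟩
  refine ⟨A, B, inferInstance, inferInstance, ?_, ?_,
    ⟨(MulEquiv.ofBijective F ⟨hFi, hFs⟩).symm⟩⟩
  · obtain ⟨a, ha, ha1⟩ := hA
    exact ⟨⟨a, ha⟩, 1, fun h => ha1 (congrArg Subtype.val h)⟩
  · obtain ⟨a, ha, ha1⟩ := hB
    exact ⟨⟨a, ha⟩, 1, fun h => ha1 (congrArg Subtype.val h)⟩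

/-! ### trees -/

/-- a group acting on a tree, in functional form -/
structure Tree (G V E : Type) [Group G] [MulAction G V] [MulAction G E] where
  d0 : E → V
  d1 : E → V
  s0 : ∀ (g : G) e, d0 (g • e) = g • d0 e
  s1 : ∀ (g : G) e, d1 (g • e) = g • d1 e
  conn : ∀ {M : Type} (F : V → M), (∀ e, F (d1 e) = F (d0 e)) → ∀ u v, F u = F v
  surj : ∀ φ : E → ZMod 2, ∃ F : V → ZMod 2, ∀ e, F (d1 e) - F (d0 e) = φ e

section
variable {G V E : Type} [Group G] [MulAction G V] [MulAction G E] (T : Tree G V E)

theorem Tree.all {Q : V → Prop} (h : ∀ e, Q (T.d1 e) ↔ Q (T.d0 e)) {u : V} (hu : Q u) (v : V) :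
    Q v := by
  have := T.conn Q (fun e => propext (h e)) u v
  rwa [this] at hu

theorem exists_side (e : E) : ∃ S : V → Prop, ¬ S (T.d0 e) ∧ S (T.d1 e) ∧
    ∀ e', e' ≠ e → (S (T.d1 e') ↔ S (T.d0 e')) := by
  classical
  obtain ⟨F, hF⟩ := T.surj (fun e' => if e' = e then 1 else 0)
  refine ⟨fun v => F v ≠ F (T.d0 e), by simp, ?_, ?_⟩
  · intro h
    have := hF e
    rw [if_pos rfl, h, sub_self] at this
    exact zero_ne_one this
  · intro e' he'
    have := hF e'
    rw [if_neg he', sub_eq_zero] at this
    beta_reduce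
    rw [this]

/-- one of the two half trees bounded by an edge -/
noncomputable def side (e : E) : V → Prop := (exists_side T e).choose

theorem side0 (e : E) : ¬ side T e (T.d0 e) := (exists_side T e).choose_spec.1
theorem side1 (e : E) : side T e (T.d1 e) := (exists_side T e).choose_spec.2.1
theorem side_ne {e e' : E} (h : e' ≠ e) : side T e (T.d1 e') ↔ side T e (T.d0 e') :=
  (exists_side T e).choose_spec.2.2 e' h

theorem side_unique {e : E} {S : V → Prop} (h0 : ¬ S (T.d0 e)) (h1 : S (T.d1 e))
    (h2 : ∀ e', e' ≠ e → (S (T.d1 e') ↔ S (T.d0 e'))) (v : V) : S v ↔ side T e v := by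
  apply T.all (Q := fun v => (S v ↔ side T e v)) (u := T.d0 e)
  · intro e'
    by_cases h : e' = e
    · subst h
      have := side0 T e'
      have := side1 T e'
      tauto
    · have := side_ne T h
      have := h2 e' h
      tauto
  · have := side0 T e
    tauto

theorem side_smul (g : G) (e : E) (v : V) : side T (g • e) (g • v) ↔ side T e v := by
  apply side_unique T (e := e) (S := fun v => side T (g • e) (g • v))
  · rw [← T.s0]; exact side0 T _
  · rw [← T.s1]; exact side1 T _
  · intro e' h
    rw [← T.s0, ← T.s1]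
    exact side_ne T (fun h' => h (smul_left_cancel g h'))

theorem side_smul' (g : G) (e : E) (v : V) : side T e (g • v) ↔ side T (g⁻¹ • e) v := by
  have := side_smul T g (g⁻¹ • e) v
  rwa [smul_inv_smul] at this

/-- the set of edges separating two vertices -/
def sep (u v : V) : Set E := {e | ¬ (side T e u ↔ side T e v)}

theorem fin_sep (u v : V) : (sep T u v).Finite := by
  apply T.all (Q := fun v => (sep T u v).Finite) (u := u)
  · intro e
    have h1 : sep T u (T.d1 e) ⊆ insert e (sep T u (T.d0 e)) := by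
      intro e' he'
      by_cases h : e' = e
      · left; exact h
      · right
        have := side_ne T (Ne.symm h)
        simp only [sep, Set.mem_setOf_eq] at he' ⊢
        rwa [this] at he'
    have h2 : sep T u (T.d0 e) ⊆ insert e (sep T u (T.d1 e)) := by
      intro e' he'
      by_cases h : e' = e
      · left; exact h
      · right
        have := side_ne T (Ne.symm h)
        simp only [sep, Set.mem_setOf_eq] at he' ⊢
        rwa [← this] at he'
    exact ⟨fun h => (h.insert e).subset h2, fun h => (h.insert e).subset h1⟩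
  · have : sep T u u = ∅ := by ext e; simp [sep]
    rw [this]; exact Set.finite_empty

open Classical in
theorem C1 {Q : V → Prop} {u v : V}
    (h : ∀ e, (Q (T.d1 e) ↔ Q (T.d0 e)) ∨ (side T e u ↔ side T e v)) : Q u ↔ Q v := by
  let F : V → ZMod 2 := fun x => if Q x then 1 else 0
  let φ : E → ZMod 2 := fun e => F (T.d1 e) - F (T.d0 e)
  let f : V → E → ZMod 2 := fun x e => if (side T e u ↔ side T e x) then 0 else φ e
  have hfin : ∀ x, (Function.support (f x)).Finite := by
    intro x
    apply (fin_sep T u x).subset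
    intro e he h
    apply he
    simp only [f]
    rw [if_pos h]
  have hchar : ∀ z : ZMod 2, -z = z := by decide
  have hk : ∀ e0, (F (T.d1 e0) - ∑ᶠ e, f (T.d1 e0) e) = (F (T.d0 e0) - ∑ᶠ e, f (T.d0 e0) e) := by
    intro e0
    have h1 : (∑ᶠ e, f (T.d1 e0) e) - (∑ᶠ e, f (T.d0 e0) e) = φ e0 := by
      rw [← finsum_sub_distrib (hfin _) (hfin _), finsum_eq_single _ e0]
      · have := side0 T e0
        have := side1 T e0
        simp only [f]
        by_cases hu : side T e0 u
        · rw [if_pos (by tauto), if_neg (by tauto), zero_sub, hchar]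
        · rw [if_neg (by tauto), if_pos (by tauto), sub_zero]
      · intro e he
        have := side_ne T (e := e) (e' := e0) (Ne.symm he)
        simp only [f]
        rw [this, sub_self]
    have h2 : φ e0 = F (T.d1 e0) - F (T.d0 e0) := rfl
    rw [h2] at h1
    linear_combination -h1
  have h3 := T.conn (fun x => F x - ∑ᶠ e, f x e) hk u v
  have h4 : ∑ᶠ e, f u e = 0 := by
    have : f u = fun _ => 0 := by funext e; simp [f]
    rw [this]; exact finsum_zero
  have h5 : ∑ᶠ e, f v e = 0 := by
    have : f v = fun _ => 0 := by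
      funext e
      simp only [f]
      rcases h e with h | h
      · have : φ e = 0 := by
          simp only [φ, F]
          rw [propext h, sub_self]
        rw [this]; simp
      · rw [if_pos h]
    rw [this]; exact finsum_zero
  simp only [h4, h5, sub_zero] at h3
  simp only [F] at h3
  by_cases hu : Q u <;> by_cases hv : Q v <;> simp_all

theorem eq_of_unsep {u v : V} (h : ∀ e, side T e u ↔ side T e v) : u = v :=
  (C1 T (Q := fun x => u = x) (u := u) (v := v) (fun e => Or.inr (h e))).1 rfl

theorem quad {e e' : E} (h : e ≠ e') (v : V) :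
    (side T e v ↔ side T e (T.d0 e')) ∨ (side T e' v ↔ side T e' (T.d0 e)) := by
  apply T.all (Q := fun v => (side T e v ↔ side T e (T.d0 e')) ∨
    (side T e' v ↔ side T e' (T.d0 e))) (u := T.d0 e)
  · intro e''
    by_cases h1 : e'' = e
    · subst h1
      have := side_ne T h
      tauto
    · by_cases h2 : e'' = e'
      · subst h2
        have := side_ne T (Ne.symm h)
        tauto
      · have := side_ne T h1
        have := side_ne T h2
        tauto
  · right; rfl

/-- the two vertices are not separated by a translate of the edge -/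
def Sim (e : E) (u v : V) : Prop := ∀ k : G, side T (k • e) u ↔ side T (k • e) v

variable {T}

theorem Sim.refl (e : E) (u : V) : Sim T e u u := fun _ => Iff.rfl
theorem Sim.symm {e : E} {u v : V} (h : Sim T e u v) : Sim T e v u := fun k => (h k).symm
theorem Sim.trans {e : E} {u v w : V} (h : Sim T e u v) (h' : Sim T e v w) : Sim T e u w :=
  fun k => (h k).trans (h' k)
theorem Sim.smul {e : E} {u v : V} (g : G) (h : Sim T e u v) : Sim T e (g • u) (g • v) := by
  intro k
  rw [side_smul', side_smul', smul_smul]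
  exact h _
theorem Sim.smul_iff {e : E} {u v : V} (g : G) : Sim T e (g • u) (g • v) ↔ Sim T e u v := by
  constructor
  · intro h
    have := h.smul g⁻¹
    rwa [inv_smul_smul, inv_smul_smul] at this
  · exact Sim.smul g

theorem sim_of_not {e e0 : E} (h : ∀ k : G, k • e ≠ e0) : Sim T e (T.d1 e0) (T.d0 e0) :=
  fun k => side_ne T (Ne.symm (h k))

theorem not_sim (e : E) (k : G) : ¬ Sim T e (k • T.d0 e) (k • T.d1 e) := by
  intro h
  have := h k
  rw [side_smul, side_smul] at this
  exact side0 T e (this.2 (side1 T e))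

/-- the vertices whose class is fixed -/
def fixCl (T : Tree G V E) (e : E) (u : V) : Subgroup G where
  carrier := {g | Sim T e (g • u) u}
  one_mem' := by simp [Sim.refl]
  mul_mem' := by
    intro a b ha hb
    simp only [Set.mem_setOf_eq] at *
    rw [mul_smul]
    exact (hb.smul a).trans ha
  inv_mem' := by
    intro a ha
    simp only [Set.mem_setOf_eq] at *
    have := ha.smul a⁻¹
    rw [inv_smul_smul] at this
    exact this.symm

theorem mem_fixCl {e : E} {u : V} {g : G} : g ∈ fixCl T e u ↔ Sim T e (g • u) u := Iff.rfl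

theorem bs_amalgam (htf : ∀ g : G, g ≠ 1 → ∀ n : ℕ, n ≠ 0 → g ^ n ≠ 1) (e : E)
    (he : ∀ g : G, g • e = e → g = 1) (hc : ∀ t : G, ¬ Sim T e (t • T.d0 e) (T.d1 e)) :
    Splits G ∨ ∃ u, ∀ g : G, Sim T e (g • u) u := by
  have hgen : fixCl T e (T.d0 e) ⊔ fixCl T e (T.d1 e) = ⊤ := by
    set Γ := fixCl T e (T.d0 e) ⊔ fixCl T e (T.d1 e) with hΓ
    have hA : fixCl T e (T.d0 e) ≤ Γ := le_sup_left
    have hB : fixCl T e (T.d1 e) ≤ Γ := le_sup_right
    have key0 : ∀ k : G, (∃ γ ∈ Γ, Sim T e (k • T.d0 e) (γ • T.d0 e) ∨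
        Sim T e (k • T.d0 e) (γ • T.d1 e)) → k ∈ Γ := by
      rintro k ⟨γ, hγ, h | h⟩
      · have h2 := h.smul γ⁻¹
        rw [inv_smul_smul, smul_smul] at h2
        have := Γ.mul_mem hγ (hA h2)
        rwa [mul_inv_cancel_left] at this
      · have h2 := h.smul γ⁻¹
        rw [inv_smul_smul, smul_smul] at h2
        exact absurd h2 (hc _)
    have key1 : ∀ k : G, (∃ γ ∈ Γ, Sim T e (k • T.d1 e) (γ • T.d0 e) ∨
        Sim T e (k • T.d1 e) (γ • T.d1 e)) → k ∈ Γ := by
      rintro k ⟨γ, hγ, h | h⟩
      · have h2 := (h.smul k⁻¹).symm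
        rw [inv_smul_smul, smul_smul] at h2
        exact absurd h2 (hc _)
      · have h2 := h.smul γ⁻¹
        rw [inv_smul_smul, smul_smul] at h2
        have := Γ.mul_mem hγ (hB h2)
        rwa [mul_inv_cancel_left] at this
    have hall : ∀ v, ∃ γ ∈ Γ, Sim T e v (γ • T.d0 e) ∨ Sim T e v (γ • T.d1 e) := by
      intro v
      apply T.all (Q := fun v => ∃ γ ∈ Γ, Sim T e v (γ • T.d0 e) ∨ Sim T e v (γ • T.d1 e))
        (u := T.d0 e)
      · intro e0
        by_cases h0 : ∃ k : G, k • e = e0
        · obtain ⟨k, rfl⟩ := h0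
          rw [T.s0, T.s1]
          constructor
          · intro h
            exact ⟨k, key1 k h, Or.inl (Sim.refl _ _)⟩
          · intro h
            exact ⟨k, key0 k h, Or.inr (Sim.refl _ _)⟩
        · push Not at h0
          have h1 := sim_of_not (T := T) h0
          constructor
          · rintro ⟨γ, hγ, h⟩
            exact ⟨γ, hγ, h.imp (fun h => h1.symm.trans h) (fun h => h1.symm.trans h)⟩
          · rintro ⟨γ, hγ, h⟩
            exact ⟨γ, hγ, h.imp (fun h => h1.trans h) (fun h => h1.trans h)⟩
      · exact ⟨1, Γ.one_mem, Or.inl (by rw [one_smul]; exact Sim.refl _ _)⟩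
    rw [eq_top_iff]
    intro g _
    exact key0 g (hall _)
  by_cases hA : ∃ a ∈ fixCl T e (T.d0 e), a ≠ 1
  · by_cases hB : ∃ a ∈ fixCl T e (T.d1 e), a ≠ 1
    · left
      refine fp_of_pingpong _ _ htf hA hB hgen (fun v => ¬ side T e v) (fun v => side T e v)
        ⟨_, side0 T e⟩ ⟨_, side1 T e⟩ (fun x h => h) ?_ ?_
      · intro a ha ha1 y hy
        have hne : a • e ≠ e := fun h => ha1 (he a h)
        have h1 := quad T hne (a • y)
        rw [side_smul] at h1
        have h2 : ¬ side T (a • e) (T.d0 e) := by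
          rw [← ha a, side_smul]
          exact side0 T e
        have h3 : ¬ side T e (T.d0 (a • e)) := by
          rw [T.s0]
          have := ha 1
          rw [one_smul] at this
          rw [this]
          exact side0 T e
        tauto
      · intro a ha ha1 y hy
        have hne : a • e ≠ e := fun h => ha1 (he a h)
        have h1 := quad T hne (a • y)
        rw [side_smul] at h1
        have h2 : side T (a • e) (T.d0 e) := by
          rw [← side_ne T hne.symm, ← ha a, side_smul]
          exact side1 T e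
        have h3 : side T e (T.d0 (a • e)) := by
          rw [← side_ne T hne, T.s1]
          have := ha 1
          rw [one_smul] at this
          rw [this]
          exact side1 T e
        tauto
    · right
      push Not at hB
      refine ⟨T.d0 e, ?_⟩
      have : fixCl T e (T.d1 e) = ⊥ := by
        rw [eq_bot_iff]
        intro a ha
        exact hB a ha
      rw [this, sup_bot_eq] at hgen
      intro g
      rw [← mem_fixCl, hgen]
      trivial
  · right
    push Not at hA
    refine ⟨T.d1 e, ?_⟩
    have : fixCl T e (T.d0 e) = ⊥ := by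
      rw [eq_bot_iff]
      intro a ha
      exact hA a ha
    rw [this, bot_sup_eq] at hgen
    intro g
    rw [← mem_fixCl, hgen]
    trivial

theorem bs_hnn (htf : ∀ g : G, g ≠ 1 → ∀ n : ℕ, n ≠ 0 → g ^ n ≠ 1) (e : E)
    (he : ∀ g : G, g • e = e → g = 1) (t : G) (ht : Sim T e (t • T.d0 e) (T.d1 e)) :
    Splits G ∨ ∃ t : G, ∀ g, ∃ n : ℤ, t ^ n = g := by
  have hd01 : ¬ Sim T e (T.d0 e) (T.d1 e) := by
    have := not_sim (T := T) e 1
    simpa using this
  have ht' : Sim T e (t⁻¹ • T.d1 e) (T.d0 e) := by
    have := (ht.smul t⁻¹).symm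
    rwa [inv_smul_smul] at this
  have htA : t ∉ fixCl T e (T.d0 e) := by
    intro h
    exact hd01 ((mem_fixCl.1 h).symm.trans ht)
  have ht1 : t ≠ 1 := by
    intro h
    rw [h, one_smul] at ht
    exact hd01 ht
  have hgen : fixCl T e (T.d0 e) ⊔ Subgroup.zpowers t = ⊤ := by
    set Γ := fixCl T e (T.d0 e) ⊔ Subgroup.zpowers t with hΓ
    have hA : fixCl T e (T.d0 e) ≤ Γ := le_sup_left
    have hB : t ∈ Γ := (le_sup_right : Subgroup.zpowers t ≤ Γ) (Subgroup.mem_zpowers t)
    have key0 : ∀ k : G, (∃ γ ∈ Γ, Sim T e (k • T.d0 e) (γ • T.d0 e)) → k ∈ Γ := by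
      rintro k ⟨γ, hγ, h⟩
      have h2 := h.smul γ⁻¹
      rw [inv_smul_smul, smul_smul] at h2
      have := Γ.mul_mem hγ (hA h2)
      rwa [mul_inv_cancel_left] at this
    have key1 : ∀ k : G, (∃ γ ∈ Γ, Sim T e (k • T.d1 e) (γ • T.d0 e)) → k ∈ Γ := by
      rintro k ⟨γ, hγ, h⟩
      have h2 : Sim T e ((k * t) • T.d0 e) (γ • T.d0 e) := by
        rw [mul_smul]
        exact (ht.smul k).trans h
      have := Γ.mul_mem (key0 _ ⟨γ, hγ, h2⟩) (Γ.inv_mem hB)
      rwa [mul_inv_cancel_right] at this
    have hall : ∀ v, ∃ γ ∈ Γ, Sim T e v (γ • T.d0 e) := by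
      intro v
      apply T.all (Q := fun v => ∃ γ ∈ Γ, Sim T e v (γ • T.d0 e)) (u := T.d0 e)
      · intro e0
        by_cases h0 : ∃ k : G, k • e = e0
        · obtain ⟨k, rfl⟩ := h0
          rw [T.s0, T.s1]
          constructor
          · intro h
            exact ⟨k, key1 k h, Sim.refl _ _⟩
          · intro h
            refine ⟨k * t, Γ.mul_mem (key0 k h) hB, ?_⟩
            rw [mul_smul]
            exact (ht.smul k).symm
        · push Not at h0
          have h1 := sim_of_not (T := T) h0
          constructor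
          · rintro ⟨γ, hγ, h⟩
            exact ⟨γ, hγ, h1.symm.trans h⟩
          · rintro ⟨γ, hγ, h⟩
            exact ⟨γ, hγ, h1.trans h⟩
      · exact ⟨1, Γ.one_mem, by rw [one_smul]; exact Sim.refl _ _⟩
    rw [eq_top_iff]
    intro g _
    exact key0 g (hall _)
  by_cases hA : ∃ a ∈ fixCl T e (T.d0 e), a ≠ 1
  · left
    -- nesting
    have hne : t • e ≠ e := fun h => ht1 (he t h)
    have nest : ∀ v, side T (t • e) v → side T e v := by
      intro v hv
      have h1 := quad T hne v
      have h2 : ¬ side T (t • e) (T.d0 e) := by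
        rw [← side_ne T hne.symm, ← ht t, side_smul]
        exact side0 T e
      have h3 : side T e (T.d0 (t • e)) := by
        rw [T.s0]
        have := ht 1
        rw [one_smul] at this
        rw [this]
        exact side1 T e
      tauto
    have nest' : ∀ v, side T e v → side T (t⁻¹ • e) v := by
      intro v hv
      rw [← side_smul']
      apply nest
      rw [side_smul]
      exact hv
    refine fp_of_pingpong _ _ htf hA ⟨t, Subgroup.mem_zpowers t, ht1⟩ hgen
      (fun v => ¬ side T e v ∧ side T (t⁻¹ • e) v) (fun v => side T e v ∨ ¬ side T (t⁻¹ • e) v)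
      ⟨T.d0 e, side0 T e, ?_⟩ ⟨T.d1 e, Or.inl (side1 T e)⟩ (by intro x h; tauto) ?_ ?_
    · rw [← ht' t⁻¹, side_smul]
      exact side1 T e
    · intro a ha ha1 y hy
      have hi : ∀ b : G, b ∈ fixCl T e (T.d0 e) → b ≠ t ∧ b * t ≠ 1 := by
        intro b hb
        refine ⟨fun h => htA (h ▸ hb), fun h => htA ?_⟩
        rw [← eq_inv_iff_mul_eq_one] at h
        rw [h] at hb
        have := inv_mem hb
        rwa [inv_inv] at this
      -- values at `d0 e`
      have v1 : ∀ k b : G, b ∈ fixCl T e (T.d0 e) →
          (side T (k • e) (b • T.d0 e) ↔ side T (k • e) (T.d0 e)) := fun k b hb => hb k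
      have s00 : ¬ side T e (T.d0 e) := side0 T e
      have s0t : side T (t⁻¹ • e) (T.d0 e) := by
        rw [← ht' t⁻¹, side_smul]
        exact side1 T e
      have sa0 : ¬ side T (a • e) (T.d0 e) := by
        rw [← ha a, side_smul]; exact side0 T e
      have sat : side T ((a * t⁻¹) • e) (T.d0 e) := by
        rw [← ha (a * t⁻¹), mul_smul, side_smul]
        exact s0t
      -- distinctness
      have n1 : a • e ≠ e := fun h => ha1 (he a h)
      have n2 : a • e ≠ t⁻¹ • e := by
        intro h
        have h2 : (t * a) • e = e := by rw [mul_smul, h, smul_inv_smul]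
        have h3 := he _ h2
        have h4 : a * t = 1 := by
          rw [mul_eq_one_iff_eq_inv] at h3
          rw [h3]; simp
        exact (hi a ha).2 h4
      have n3 : (a * t⁻¹) • e ≠ e := by
        intro h
        have h3 := he _ h
        rw [mul_inv_eq_one] at h3
        exact (hi a ha).1 h3
      have n4 : (a * t⁻¹) • e ≠ t⁻¹ • e := by
        intro h
        have h2 : (t * (a * t⁻¹)) • e = e := by rw [mul_smul, h, smul_inv_smul]
        have h3 := he _ h2
        apply ha1
        have : a = t⁻¹ * (t * (a * t⁻¹)) * t := by group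
        rw [this, h3]; group
      -- `d0` of the edges
      have c1 : ∀ k : G, side T (k • e) (T.d0 (a • e)) ↔ side T (k • e) (T.d0 e) := by
        intro k; rw [T.s0]; exact ha k
      have c2 : ∀ k : G, k • e ≠ t⁻¹ • e →
          (side T (k • e) (T.d0 (t⁻¹ • e)) ↔ side T (k • e) (T.d0 e)) := by
        intro k hk
        rw [← side_ne T hk.symm, T.s1]
        exact ht' k
      have c3 : ∀ k : G, k • e ≠ (a * t⁻¹) • e →
          (side T (k • e) (T.d0 ((a * t⁻¹) • e)) ↔ side T (k • e) (T.d0 e)) := by
        intro k hk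
        rw [← side_ne T hk.symm, T.s1, mul_smul]
        exact ((ht'.smul a).trans ha) k
      have c1' := c1 1
      have c1t := c1 t⁻¹
      have c2a := c2 a n2
      have c2t := c2 (a * t⁻¹) n4
      have c31 := c3 1 (by rw [one_smul]; exact n3.symm)
      have c3t := c3 t⁻¹ n4.symm
      rw [one_smul] at c1' c31
      have q1 := (quad T n1 (a • y)).imp (fun h hp => sa0 (h.1 hp))
        (fun h hp => s00 (c1'.1 (h.1 hp)))
      have q2 := (quad T n2 (a • y)).imp (fun h hp => sa0 (c2a.1 (h.1 hp)))
        (fun h => h.2 (c1t.2 s0t))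
      have q3 := (quad T n3 (a • y)).imp (fun h => h.2 sat)
        (fun h hp => s00 (c31.1 (h.1 hp)))
      have q4 := (quad T n4 (a • y)).imp (fun h => h.2 (c2t.2 sat))
        (fun h => h.2 (c3t.2 s0t))
      clear c2t c31 c3t c1' c1t c2a c1 c2 c3 n1 n2 n3 n4 sat sa0 s0t s00 v1 hi nest nest'
      have e1 : side T (a • e) (a • y) ↔ side T e y := side_smul T a e y
      have e2 : side T ((a * t⁻¹) • e) (a • y) ↔ side T (t⁻¹ • e) y := by
        rw [mul_smul]; exact side_smul T a _ y
      rcases hy with hy | hy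
      · rw [← e1] at hy
        exact ⟨fun h => q1.elim (fun h' => h' hy) (fun h' => h' h),
          q2.elim (fun h' => absurd hy h') id⟩
      · rw [← e2] at hy
        exact ⟨fun h => q3.elim hy (fun h' => h' h), q4.elim (fun h' => absurd h' hy) id⟩
    · rintro b ⟨n, rfl⟩ hb1 x ⟨hx1, hx2⟩
      beta_reduce at hb1 ⊢
      rcases n with n | n
      · -- nonnegative
        rw [Int.ofNat_eq_natCast, zpow_natCast] at hb1 ⊢
        obtain ⟨m, rfl⟩ : ∃ m, n = m + 1 := by
          cases n with
          | zero => exact absurd (pow_zero t) hb1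
          | succ m => exact ⟨m, rfl⟩
        left
        clear hb1
        induction m with
        | zero =>
          rw [zero_add, pow_one, side_smul']
          exact hx2
        | succ m ih =>
          rw [pow_succ', mul_smul, side_smul']
          exact nest' _ ih
      · right
        rw [zpow_negSucc, ← inv_pow]
        clear hb1
        induction n with
        | zero =>
          rw [zero_add, pow_one, side_smul]
          exact hx1
        | succ m ih =>
          rw [pow_succ', mul_smul, side_smul]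
          exact fun h => ih (nest' _ h)
  · right
    push Not at hA
    have : fixCl T e (T.d0 e) = ⊥ := by
      rw [eq_bot_iff]
      intro a ha
      exact hA a ha
    rw [this, bot_sup_eq] at hgen
    refine ⟨t, fun g => ?_⟩
    have h : g ∈ Subgroup.zpowers t := by rw [hgen]; trivial
    exact h

/-- **Bass-Serre theory** for an edge with trivial stabilizer. -/
theorem bs (htf : ∀ g : G, g ≠ 1 → ∀ n : ℕ, n ≠ 0 → g ^ n ≠ 1) (e : E)
    (he : ∀ g : G, g • e = e → g = 1) :
    Splits G ∨ (∃ t : G, ∀ g, ∃ n : ℤ, t ^ n = g) ∨ ∃ u, ∀ g : G, Sim T e (g • u) u := by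
  by_cases hc : ∃ t : G, Sim T e (t • T.d0 e) (T.d1 e)
  · obtain ⟨t, ht⟩ := hc
    rcases bs_hnn htf e he t ht with h | h
    · exact Or.inl h
    · exact Or.inr (Or.inl h)
  · push Not at hc
    rcases bs_amalgam htf e he hc with h | h
    · exact Or.inl h
    · exact Or.inr (Or.inr h)

end

end Pool.Agent.H599R3.RH
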