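import Pool.Agent.H599R3.RH.Bs

/-!
# Consequences for groups acting on trees
-/

set_option autoImplicit false

namespace Pool.Agent.H599R3.RH

variable {G V E : Type} [Group G] [MulAction G V] [MulAction G E] {T : Tree G V E}

/-- the group is cyclic -/
def Cyc (G : Type) [Group G] : Prop := ∃ t : G, ∀ g, ∃ n : ℤ, t ^ n = g

theorem pow_inj_tf (htf : ∀ g : G, g ≠ 1 → ∀ n : ℕ, n ≠ 0 → g ^ n ≠ 1) {h : G} (h1 : h ≠ 1)
    {m n : ℕ} (h3 : h ^ m = h ^ n) : m = n := by
  by_contra hne
  rcases lt_or_gt_of_ne hne with hl | hl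
  · apply htf h h1 (n - m) (by omega)
    have : h ^ n = h ^ (n - m) * h ^ m := by rw [← pow_add]; congr 1; omega
    rw [h3] at this
    exact right_eq_mul.1 this
  · apply htf h h1 (m - n) (by omega)
    have : h ^ m = h ^ (m - n) * h ^ n := by rw [← pow_add]; congr 1; omega
    rw [h3] at this
    exact right_eq_mul.1 this

theorem step1 (htf : ∀ g : G, g ≠ 1 → ∀ n : ℕ, n ≠ 0 → g ^ n ≠ 1) (hs : ¬ Splits G)
    (hc : ¬ Cyc G) (e : E) (he : ∀ g : G, g • e = e → g = 1) (τ : V) (h : G) (h1 : h ≠ 1)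
    (hτ : h • τ = τ) (g : G) : Sim T e (g • τ) τ := by
  obtain ⟨u, hu⟩ := ((bs (T := T) htf e he).resolve_left hs).resolve_left hc
  have hτu : Sim T e τ u := by
    by_contra hcon
    unfold Sim at hcon
    push Not at hcon
    obtain ⟨k, hk⟩ := hcon
    have hk' : ¬ (side T (k • e) τ ↔ side T (k • e) u) := by tauto
    have hpow : ∀ n : ℕ, (h ^ n)⁻¹ • τ = τ := by
      intro n
      have h2 : ∀ n : ℕ, h ^ n • τ = τ := by
        intro n
        induction n with
        | zero => simp
        | succ n ih => rw [pow_succ, mul_smul, hτ, ih]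
      rw [inv_smul_eq_iff, h2]
    have hmem : ∀ n : ℕ, (h ^ n * k) • e ∈ sep T τ u := by
      intro n hn
      apply hk'
      have e1 : side T ((h ^ n * k) • e) τ ↔ side T (k • e) τ := by
        have := side_smul T (h ^ n) (k • e) ((h ^ n)⁻¹ • τ)
        rwa [smul_inv_smul, smul_smul, hpow] at this
      have e2 : side T ((h ^ n * k) • e) u ↔ side T (k • e) u := by
        have := side_smul T (h ^ n) (k • e) ((h ^ n)⁻¹ • u)
        rw [smul_inv_smul, smul_smul] at this
        exact this.trans (hu _ k)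
      rw [← e1, ← e2]
      exact hn
    have hinj : Function.Injective (fun n : ℕ => (h ^ n * k) • e) := by
      intro m n hmn
      have h2 : h ^ m * k = h ^ n * k := by
        have h3 : ((h ^ n * k)⁻¹ * (h ^ m * k)) • e = e := by
          rw [mul_smul, inv_smul_eq_iff]; exact hmn
        have := he _ h3
        rw [inv_mul_eq_one] at this
        exact this.symm
      have h3 : h ^ m = h ^ n := mul_right_cancel h2
      exact pow_inj_tf htf h1 h3
    exact Set.infinite_of_injective_forall_mem hinj hmem (fin_sep T τ u)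
  exact ((hτu.smul g).trans (hu g)).trans hτu.symm

theorem step2 (htf : ∀ g : G, g ≠ 1 → ∀ n : ℕ, n ≠ 0 → g ^ n ≠ 1) (hs : ¬ Splits G)
    (hc : ¬ Cyc G) (H : Subgroup G)
    (hM : ∀ g h : G, h ∈ H → h ≠ 1 → g⁻¹ * h * g ∈ H → g ∈ H)
    (hZ : ∀ v : V, (∃ s : G, s ≠ 1 ∧ s • v = v) → ∃ z : G, z ≠ 1 ∧ ∀ s : G, s • v = v →
      s * z = z * s)
    (T : Tree G V E) (τ : V) (h : G) (h1 : h ≠ 1) (hH : h ∈ H) (hτ : h • τ = τ) (g : G) :
    g ∈ H := by
  have key : ∀ v : V, (∃ h : G, h ≠ 1 ∧ h ∈ H ∧ h • v = v) → ∀ s : G, s • v = v → s ∈ H := by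
    rintro v ⟨h, h1, h2, h3⟩ s hs
    obtain ⟨z, hz1, hz⟩ := hZ v ⟨h, h1, h3⟩
    have hzH : z ∈ H := by
      apply hM z h h2 h1
      rw [mul_assoc, hz h h3]
      simpa using h2
    apply hM s z hzH hz1
    rw [mul_assoc, ← hz s hs]
    simpa using hzH
  have h4 : (∃ h : G, h ≠ 1 ∧ h ∈ H ∧ h • τ = τ) ↔ (∃ h : G, h ≠ 1 ∧ h ∈ H ∧ h • (g • τ) = g • τ) := by
    apply C1 T (Q := fun v => ∃ h : G, h ≠ 1 ∧ h ∈ H ∧ h • v = v)
    intro e
    by_cases he : ∀ g : G, g • e = e → g = 1
    · right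
      have := step1 (T := T) htf hs hc e he τ h h1 hτ g 1
      rw [one_smul] at this
      exact this.symm
    · left
      push Not at he
      obtain ⟨s, hs, hs1⟩ := he
      have e0 : s • T.d0 e = T.d0 e := by rw [← T.s0, hs]
      have e1 : s • T.d1 e = T.d1 e := by rw [← T.s1, hs]
      exact ⟨fun h => ⟨s, hs1, key _ h s e1, e0⟩, fun h => ⟨s, hs1, key _ h s e0, e1⟩⟩
  have h5 := key _ (h4.1 ⟨h, h1, hH, hτ⟩) (g * h * g⁻¹) (by
    rw [mul_smul, mul_smul, inv_smul_smul, hτ])
  have h6 := hM g⁻¹ h hH h1 (by simpa using h5)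
  exact (inv_mem_iff).1 h6

/-- points of a convex class and separating edges -/
theorem free_case (htf : ∀ g : G, g ≠ 1 → ∀ n : ℕ, n ≠ 0 → g ^ n ≠ 1) (T : Tree G V E)
    (hf : ∀ (v : V) (g : G), g • v = v → g = 1) (v0 : V) (g0 : G) (hg0 : g0 ≠ 1) :
    Splits G ∨ Cyc G := by
  classical
  by_contra hcon
  push Not at hcon
  obtain ⟨hs, hc⟩ := hcon
  -- minimal pair
  have hex : ∃ n, ∃ (v : V) (g : G), g ≠ 1 ∧ (sep T v (g • v)).ncard = n :=
    ⟨_, v0, g0, hg0, rfl⟩
  obtain ⟨v, g, hg1, hn⟩ := Nat.find_spec hex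
  have hmin : ∀ (v' : V) (g' : G), g' ≠ 1 → (sep T v (g • v)).ncard ≤ (sep T v' (g' • v')).ncard := by
    intro v' g' hg'
    rw [hn]
    exact Nat.find_min' hex ⟨v', g', hg', rfl⟩
  have hne : ∃ e, ¬ (side T e v ↔ side T e (g • v)) := by
    by_contra h
    push Not at h
    have := eq_of_unsep T (u := v) (v := g • v) (by intro e; have := h e; tauto)
    exact hg1 (hf v g this.symm)
  obtain ⟨e, he⟩ := hne
  have hefree : ∀ k : G, k • e = e → k = 1 := by
    intro k hk
    apply hf (T.d0 e)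
    rw [← T.s0, hk]
  obtain ⟨u, hu⟩ := ((bs (T := T) htf e hefree).resolve_left hs).resolve_left hc
  -- nearest point of the class of `u`
  have hex2 : ∃ n, ∃ y : V, Sim T e y u ∧ (sep T v y).ncard = n := ⟨_, u, Sim.refl _ _, rfl⟩
  obtain ⟨y, hy, hny⟩ := Nat.find_spec hex2
  have hymin : ∀ y', Sim T e y' u → (sep T v y).ncard ≤ (sep T v y').ncard := by
    intro y' hy'
    rw [hny]
    exact Nat.find_min' hex2 ⟨y', hy', rfl⟩
  have claimN : ∀ f ∈ sep T v y, ∀ k, Sim T e k u → (side T f k ↔ side T f y) := by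
    intro f hfs k hk
    by_contra hky
    -- endpoint of `f` on the side of `v`
    have hfO : ∀ k' : G, k' • e ≠ f := by
      rintro k' rfl
      exact hky ((hk.trans hy.symm) k')
    obtain ⟨z, hz1, hz2⟩ : ∃ z, (side T f z ↔ side T f v) ∧
        ∀ s, s ≠ f → (side T s z ↔ side T s (T.d0 f)) := by
      by_cases hfv : side T f v
      · exact ⟨T.d1 f, by simp [side1 T f, hfv], fun s hs' => side_ne T hs'.symm⟩
      · exact ⟨T.d0 f, by simp [side0 T f, hfv], fun s _ => Iff.rfl⟩
    have hzsim : Sim T e z u := by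
      intro k'
      have hne' : k' • e ≠ f := hfO k'
      rw [hz2 _ hne']
      have q1 := quad T hne' y
      have q2 := quad T hne' k
      have h3 := hk k'
      have h4 := hy k'
      clear * - q1 q2 h3 h4 hky
      tauto
    have hlt : (sep T v z).ncard < (sep T v y).ncard := by
      apply Set.ncard_lt_ncard _ (fin_sep T v y)
      refine ⟨?_, ?_⟩
      · intro s hsz
        have hsf : s ≠ f := by
          rintro rfl
          exact hsz hz1.symm
        simp only [sep, Set.mem_setOf_eq] at hsz hfs ⊢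
        have q1 := quad T hsf v
        have q2 := quad T hsf y
        have h3 := hz2 s hsf
        clear * - q1 q2 h3 hsz hfs
        tauto
      · intro hsub
        have := hsub hfs
        exact this hz1.symm
    have := hymin z hzsim
    omega
  have hgy : Sim T e (g • y) u := ((hy.smul g).trans (hu g))
  have hgy' : Sim T e (g⁻¹ • y) u := ((hy.smul g⁻¹).trans (hu g⁻¹))
  have hlt : (sep T y (g • y)).ncard < (sep T v (g • v)).ncard := by
    apply Set.ncard_lt_ncard _ (fin_sep T v (g • v))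
    refine ⟨?_, ?_⟩
    · intro f hfy
      by_contra hfv
      simp only [sep, Set.mem_setOf_eq, not_not] at hfy hfv
      by_cases h1 : f ∈ sep T v y
      · have := claimN f h1 (g • y) hgy
        tauto
      · have h2 : g⁻¹ • f ∈ sep T v y := by
          simp only [sep, Set.mem_setOf_eq, not_not] at h1 ⊢
          rw [← side_smul', ← side_smul']
          tauto
        have := claimN _ h2 (g⁻¹ • y) hgy'
        rw [side_smul, ← side_smul'] at this
        tauto
    · intro hsub
      have h1 : e ∈ sep T y (g • y) := hsub he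
      apply h1
      have := (hy.trans hgy.symm) 1
      rwa [one_smul] at this
  have := hmin y g hg1
  omega

end Pool.Agent.H599R3.RH
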