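import Pool.Agent.H599R3.RH.Def

/-!
# Malnormality of the peripheral subgroups
-/

set_option autoImplicit false

namespace Pool.Agent.H599R3.RH

variable {G : Type} [Group G] {ι : Type} {H : ι → Subgroup G} {X : Set G}

/-- the representation on functions by right translation -/
def rt (G : Type) [Group G] : Representation ℤ G (G → ℤ) where
  toFun g :=
    { toFun := fun φ v => φ (v * g)
      map_add' := fun _ _ => rfl
      map_smul' := fun _ _ => rfl }
  map_one' := by ext φ v; simp
  map_mul' g h := by ext φ v; simp [mul_assoc]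

theorem rt_apply (g : G) (φ : G → ℤ) (v : G) : rt G g φ v = φ (v * g) := rfl

/-- the zero cocycle -/
def coc0 (G : Type) [Group G] : Coc (rt G) where
  f _ _ := 0
  coc _ _ _ := by simp
  one_left _ := rfl

@[simp] theorem coc0_f (a b : G) : (coc0 G).f a b = 0 := rfl

open Classical in
/-- the function attached to an index -/
noncomputable def fj (i : ι) (f : G → ℤ) (j : ι) : G → ℤ := if j = i then f else 0

/-- the homomorphism attached to a function -/
noncomputable def phi0 (H : ι → Subgroup G) (X : Set G) (i : ι) (f : G → ℤ) :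
    FP H X →* Ext (coc0 G) :=
  Monoid.Coprod.lift
    (Monoid.CoprodI.lift fun j =>
      { toFun := fun h => ⟨rt G (h : G) (fj i f j) - fj i f j, (h : G)⟩
        map_one' := by
          ext1
          · simp [one_m]
          · simp [one_g]
        map_mul' := by
          intro a b
          ext1
          · rw [mul_m]
            simp only [coc0_f, Subgroup.coe_mul, map_mul, map_sub, Module.End.mul_apply]
            abel
          · simp [mul_g] })
    (FreeGroup.lift fun x => ⟨0, (x : G)⟩)

theorem phi0_g (i : ι) (f : G → ℤ) (z : FP H X) : (phi0 H X i f z).g = nat H X z := by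
  have : (prj (coc0 G)).comp (phi0 H X i f) = nat H X := by
    apply Monoid.Coprod.hom_ext
    · apply Monoid.CoprodI.ext_hom
      intro j
      ext h
      simp [phi0, nat, prj]
    · ext x
      simp [phi0, nat, prj]
  exact DFunLike.congr_fun this z

theorem phi0_inl (i : ι) (f : G → ℤ) (x : X) (b : Bool) (v : G) :
    (phi0 H X i f (lv (.inl (x, b)))).m v = 0 := by
  have h1 : ∀ v, (phi0 H X i f (lv (.inl (x, true)))).m v = 0 := by
    intro v; simp [lv, phi0]
  cases b
  · have h2 : (lv (.inl (x, false)) : FP H X) = (lv (.inl (x, true)))⁻¹ := by simp [lv]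
    rw [h2, map_inv, inv_m]
    simp only [coc0_f, sub_zero, Pi.neg_apply, rt_apply, h1, neg_zero]
  · exact h1 v

theorem phi0_inr (i j : ι) (f : G → ℤ) (h : H j) (v : G) :
    (phi0 H X i f (lv (.inr ⟨j, h⟩))).m v = fj i f j (v * h) - fj i f j v := by
  simp [lv, phi0, rt_apply]

theorem phi0_mul (i : ι) (f : G → ℤ) (y z : FP H X) (v : G) :
    (phi0 H X i f (y * z)).m v = (phi0 H X i f y).m v + (phi0 H X i f z).m (v * nat H X y) := by
  rw [map_mul, mul_m, ← phi0_g i f y]
  simp [coc0, rt_apply]

/-- the vertices of a word -/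
def vts : G → List (Letter H X) → List G
  | v, [] => [v]
  | v, a :: l => v :: vts (v * nat H X (lv a)) l

theorem mem_vts_self (v : G) (l : List (Letter H X)) : v ∈ vts v l := by
  cases l <;> simp [vts]

theorem phi0_word_zero (i : ι) (f : G → ℤ) (l : List (Letter H X)) : ∀ (v u : G),
    (∀ x ∈ vts v l, ∀ y ∈ vts v l, (x ∈ H i ↔ y ∈ H i) → f (u * x) = f (u * y)) →
    (phi0 H X i f (wv l)).m (u * v) = 0 := by
  induction l with
  | nil => intro v u _; simp [one_m]
  | cons a l ih =>
    intro v u h
    rw [wv_cons, phi0_mul, mul_assoc, ih (v * nat H X (lv a)) u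
      (fun x hx y hy => h x (by simp [vts, hx]) y (by simp [vts, hy])), add_zero]
    rcases a with ⟨x, b⟩ | ⟨j, k⟩
    · exact phi0_inl i f x b _
    · rw [phi0_inr]
      unfold fj
      split_ifs with hj
      · subst hj
        rw [mul_assoc, sub_eq_zero]
        have h1 := h (v * nat H X (lv (.inr ⟨j, k⟩))) (by simp [vts, mem_vts_self]) v (by simp [vts])
        rw [nat_inr] at h1
        apply h1
        constructor
        · intro h2
          have := (H j).mul_mem h2 ((H j).inv_mem k.2)
          simpa using this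
        · intro h2
          exact (H j).mul_mem h2 k.2
      · simp

theorem vts_finite (v : G) (l : List (Letter H X)) : {x | x ∈ vts v l}.Finite :=
  List.finite_toSet _

/-- balls -/
def ball (S₀ Om : Set G) : ℕ → Set G
  | 0 => S₀
  | n + 1 => ball S₀ Om n ∪ Set.image2 (fun x o => x * o) (ball S₀ Om n) Om ∪
      Set.image2 (fun x o => x * o⁻¹) (ball S₀ Om n) Om

theorem ball_finite {S₀ Om : Set G} (h1 : S₀.Finite) (h2 : Om.Finite) (n : ℕ) :
    (ball S₀ Om n).Finite := by
  induction n with
  | zero => exact h1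
  | succ n ih => exact (ih.union (ih.image2 _ h2)).union (ih.image2 _ h2)

theorem ball_mono {S₀ Om : Set G} {m n : ℕ} (h : m ≤ n) : ball S₀ Om m ⊆ ball S₀ Om n := by
  induction h with
  | refl => exact le_rfl
  | step _ ih => exact ih.trans (Set.subset_union_left.trans Set.subset_union_left)

theorem ball_sub {S₀ Om : Set G} {K : Subgroup G} (h1 : S₀ ⊆ K) (h2 : Om ⊆ K) (n : ℕ) :
    ball S₀ Om n ⊆ K := by
  induction n with
  | zero => exact h1
  | succ n ih =>
    rintro x ((hx | ⟨y, hy, o, ho, rfl⟩) | ⟨y, hy, o, ho, rfl⟩)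
    · exact ih hx
    · exact K.mul_mem (ih hy) (h2 ho)
    · exact K.mul_mem (ih hy) (K.inv_mem (h2 ho))

open Classical in
/-- truncated distance -/
noncomputable def dist (S₀ Om : Set G) (T : ℕ) (x : G) : ℤ :=
  (((Finset.range T).filter (fun n => x ∉ ball S₀ Om n)).card : ℤ)

theorem dist_far {S₀ Om : Set G} {T : ℕ} {x : G} (h : x ∉ ball S₀ Om T) :
    dist S₀ Om T x = T := by
  classical
  unfold dist
  rw [Finset.filter_true_of_mem, Finset.card_range]
  intro n hn h'
  exact h (ball_mono (Finset.mem_range.1 hn).le h')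

theorem dist_zero {S₀ Om : Set G} {T : ℕ} {x : G} (h : x ∈ S₀) : dist S₀ Om T x = 0 := by
  classical
  unfold dist
  rw [Finset.filter_false_of_mem]
  · simp
  · intro n _ h'
    exact h' (ball_mono (Nat.zero_le n) h)

theorem dist_le {S₀ Om : Set G} {T : ℕ} {x y : G}
    (h : ∀ n, x ∈ ball S₀ Om n → y ∈ ball S₀ Om (n + 1)) :
    dist S₀ Om T y ≤ dist S₀ Om T x + 1 := by
  classical
  unfold dist
  have h1 : (Finset.range T).filter (fun n => y ∉ ball S₀ Om n) ⊆
      insert 0 (((Finset.range T).filter (fun n => x ∉ ball S₀ Om n)).image (· + 1)) := by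
    intro n hn
    rw [Finset.mem_filter, Finset.mem_range] at hn
    rcases n with _ | n
    · simp
    · apply Finset.mem_insert_of_mem
      rw [Finset.mem_image]
      refine ⟨n, ?_, rfl⟩
      rw [Finset.mem_filter, Finset.mem_range]
      refine ⟨by omega, fun h' => hn.2 (h n h')⟩
  have h2 := (Finset.card_le_card h1).trans (Finset.card_insert_le _ _)
  have h3 := Finset.card_image_le (s := (Finset.range T).filter (fun n => x ∉ ball S₀ Om n))
    (f := (· + 1))
  have h4 := h2.trans (Nat.add_le_add_right h3 1)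
  exact_mod_cast h4

theorem dist_lip {S₀ Om : Set G} {T : ℕ} {x o : G} (ho : o ∈ Om) :
    |dist S₀ Om T (x * o) - dist S₀ Om T x| ≤ 1 := by
  have h1 : dist S₀ Om T (x * o) ≤ dist S₀ Om T x + 1 :=
    dist_le fun n hn => Or.inl (Or.inr ⟨x, hn, o, ho, rfl⟩)
  have h2 : dist S₀ Om T x ≤ dist S₀ Om T (x * o) + 1 :=
    dist_le fun n hn => Or.inr ⟨x * o, hn, o, ho, by simp⟩
  rw [abs_le]
  constructor <;> linarith

/-- **Malnormality**: an element of infinite order of `H i` conjugate by `g` into `H j` forces
`i = j` and `g ∈ H i`. -/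
theorem malnormal (hH : IsHypRel H) (i j : ι) (g h : G) (hi : h ∈ H i)
    (hinf : ∀ n : ℕ, n ≠ 0 → h ^ n ≠ 1) (hj : g⁻¹ * h * g ∈ H j) : i = j ∧ g ∈ H i := by
  classical
  by_contra hcon
  obtain ⟨X, hX, hsurj, R, hR, hker, C, hC⟩ := hH
  have hR1 : ∀ r ∈ R, nat H X r = 1 := by
    intro r hr
    have : r ∈ (nat H X).ker := by rw [← hker]; exact Subgroup.subset_normalClosure hr
    exact this
  choose wr hwr using fun r : FP H X => exists_wv r
  obtain ⟨z, hz⟩ := hsurj g
  obtain ⟨wg, rfl⟩ := exists_wv z
  -- letters of the relators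
  set Om : Set G := {o | ∃ r ∈ R, ∃ k : H i, (Sum.inr ⟨i, k⟩ : Letter H X) ∈ wr r ∧ (k : G) = o}
    with hOm
  have hOmf : Om.Finite := by
    have h1 : (⋃ r ∈ R, (fun a : Letter H X => nat H X (lv a)) '' {a | a ∈ wr r}).Finite :=
      hR.biUnion fun r _ => (List.finite_toSet _).image _
    apply h1.subset
    rintro o ⟨r, hr, k, hk, rfl⟩
    simp only [Set.mem_iUnion]
    exact ⟨r, hr, _, hk, nat_inr i k⟩
  have hOmi : Om ⊆ (H i : Set G) := by
    rintro o ⟨r, _, k, _, rfl⟩
    exact k.2
  obtain ⟨K, hK⟩ := (hR.image fun r => (wr r).length).bddAbove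
  set T : ℕ := K * (C * (2 * wg.length + 2)) + 1 with hT
  set S₀ : Set G := {x | x ∈ vts (1 : G) wg ∧ x ∈ H i} with hS₀
  have hS₀f : S₀.Finite := (vts_finite (1 : G) wg).subset fun x hx => hx.1
  have hS₀i : S₀ ⊆ (H i : Set G) := fun x hx => hx.2
  have hBf : (ball S₀ Om T).Finite := ball_finite hS₀f hOmf T
  have hBi : ball S₀ Om T ⊆ (H i : Set G) := ball_sub hS₀i hOmi T
  set f : G → ℤ := dist S₀ Om T with hf
  have h1S : (1 : G) ∈ S₀ := ⟨mem_vts_self _ _, (H i).one_mem⟩
  have hout : ∀ x, x ∉ H i → f x = T := fun x hx => dist_far fun h' => hx (hBi h')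
  have hz0 : ∀ x, x ∈ vts (1 : G) wg → x ∈ H i → f x = 0 := fun x h1 h2 =>
    dist_zero (show x ∈ S₀ from ⟨h1, h2⟩)
  -- the relators have small values
  have hsmall : ∀ r ∈ R, ∀ v : G, |(phi0 H X i f r).m v| ≤ K := by
    intro r hr v
    have key : ∀ l : List (Letter H X), (∀ k : H i, (Sum.inr ⟨i, k⟩ : Letter H X) ∈ l → (k : G) ∈ Om) →
        ∀ v, |(phi0 H X i f (wv l)).m v| ≤ l.length := by
      intro l
      induction l with
      | nil => intro _ v; simp [one_m]
      | cons a l ih =>
        intro hl v
        rw [wv_cons, phi0_mul]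
        have i1 := ih (fun k hk => hl k (List.mem_cons_of_mem _ hk)) (v * nat H X (lv a))
        have i2 : |(phi0 H X i f (lv a)).m v| ≤ 1 := by
          rcases a with ⟨x, b⟩ | ⟨j', k⟩
          · rw [phi0_inl]; simp
          · rw [phi0_inr]
            unfold fj
            split_ifs with hj'
            · subst hj'
              exact dist_lip (hl k (by simp))
            · simp
        rw [List.length_cons]
        push_cast
        exact (abs_add_le _ _).trans (by linarith)
    have := key (wr r) (fun k hk => ⟨r, hr, k, hk, rfl⟩) v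
    rw [hwr] at this
    refine this.trans ?_
    exact_mod_cast hK ⟨r, hr, rfl⟩
  -- the finite set containing all the elements
  have hfin : {x : G | ∃ v ∈ S₀, x * v ∈ ball S₀ Om T}.Finite := by
    apply (hBf.image2 (fun b v => b * v⁻¹) hS₀f).subset
    rintro x ⟨v, hv, hx⟩
    exact ⟨x * v, hx, v, hv, by simp⟩
  have hmain : ∀ x : G, x ∈ H i → g⁻¹ * x * g ∈ H j → ∃ v ∈ S₀, x * v ∈ ball S₀ Om T := by
    intro x hx hxj
    by_contra hno
    push Not at hno
    have hfar : ∀ v ∈ S₀, f (x * v) = T := fun v hv => dist_far (hno v hv)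
    set l : List (Letter H X) := Sum.inr ⟨i, ⟨x, hx⟩⟩ :: (wg ++
      Sum.inr ⟨j, ⟨g⁻¹ * x * g, hxj⟩⁻¹⟩ :: wi wg) with hl
    have hnat : nat H X (wv l) = 1 := by
      rw [hl, wv_cons, wv_append, wv_cons, wv_wi, map_mul, map_mul, map_mul, map_inv, nat_inr,
        nat_inr, hz]
      simp only [InvMemClass.coe_inv]
      group
    have harea := area_bound (R := R) (φ := phi0 H X i f) (phi0_g i f) hR1
      (ν := fun m => (m 1).natAbs) (by simp) (fun m m' => by simpa using Int.natAbs_add_le _ _)
      (fun m => by simp) (K := K) (by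
        intro r hr g'
        rw [rt_apply, one_mul]
        have := hsmall r hr g'
        rw [← Int.natCast_natAbs] at this
        exact_mod_cast this) (hC l hnat)
    have hlen : l.length = 2 * wg.length + 2 := by
      rw [hl]; simp [length_wi]; omega
    rw [hlen] at harea
    have hval : (phi0 H X i f (wv l)).m 1 = T := by
      have e1 : (phi0 H X i f (wv wg)).m 1 = 0 := by
        have := phi0_word_zero (H := H) (X := X) i f wg 1 1 (by
          intro a ha b hb hab
          rw [one_mul, one_mul]
          by_cases ha' : a ∈ H i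
          · rw [hz0 a ha ha', hz0 b hb (hab.1 ha')]
          · rw [hout a ha', hout b (fun h' => ha' (hab.2 h'))])
        simpa using this
      have e2 : (phi0 H X i f (wv wg)).m x = 0 := by
        have := phi0_word_zero (H := H) (X := X) i f wg 1 x (by
          intro a ha b hb hab
          by_cases ha' : a ∈ H i
          · rw [hfar a ⟨ha, ha'⟩, hfar b ⟨hb, hab.1 ha'⟩]
          · have hb' : b ∉ H i := fun h' => ha' (hab.2 h')
            rw [hout (x * a), hout (x * b)]
            · intro h'
              apply hb'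
              have := (H i).mul_mem ((H i).inv_mem hx) h'
              simpa using this
            · intro h'
              apply ha'
              have := (H i).mul_mem ((H i).inv_mem hx) h'
              simpa using this)
        simpa using this
      have e3 : (phi0 H X i f (wv (wi wg))).m g = 0 := by
        have h5 : (phi0 H X i f (wv wg * wv (wi wg))).m 1 = 0 := by
          rw [wv_wi, mul_inv_cancel, map_one]; rfl
        rw [phi0_mul, e1, hz, one_mul, zero_add] at h5
        exact h5
      have e4 : fj i f j (x * g * (g⁻¹ * x * g)⁻¹) - fj i f j (x * g) = 0 := by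
        unfold fj
        split_ifs with hji
        · have hgi : g ∉ H i := fun h' => hcon ⟨hji.symm, h'⟩
          have h6 : x * g ∉ H i := by
            intro h'
            apply hgi
            have := (H i).mul_mem ((H i).inv_mem hx) h'
            simpa using this
          have h7 : x * g * (g⁻¹ * x * g)⁻¹ = g := by group
          rw [h7, hout _ hgi, hout _ h6, sub_self]
        · simp
      have e5 : fj i f i (1 * x) - fj i f i 1 = T := by
        unfold fj
        rw [if_pos rfl, one_mul]
        have h8 := hfar 1 h1S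
        rw [mul_one] at h8
        rw [h8, hf, dist_zero h1S, sub_zero]
      rw [hl, wv_cons, phi0_mul, wv_append, phi0_mul, wv_cons, phi0_mul, phi0_inr, phi0_inr,
        nat_inr, nat_inr, hz]
      simp only [InvMemClass.coe_inv]
      rw [e5, one_mul, e2, e4]
      have h9 : x * g * (g⁻¹ * x * g)⁻¹ = g := by group
      rw [h9, e3]
      ring
    simp only [hval] at harea
    rw [hT] at harea
    have : ((K * (C * (2 * wg.length + 2)) + 1 : ℕ) : ℤ).natAbs = K * (C * (2 * wg.length + 2)) + 1 :=
      Int.natAbs_natCast _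
    rw [this] at harea
    omega
  -- powers of `h`
  have hpow : ∀ n : ℕ, h ^ n ∈ {x : G | ∃ v ∈ S₀, x * v ∈ ball S₀ Om T} := by
    intro n
    apply hmain (h ^ n) ((H i).pow_mem hi n)
    have : g⁻¹ * h ^ n * g = (g⁻¹ * h * g) ^ n := by
      have := conj_pow (a := g⁻¹) (b := h) (i := n)
      simpa using this.symm
    rw [this]
    exact (H j).pow_mem hj n
  have hinj : Function.Injective (fun n : ℕ => h ^ n) := by
    intro a b hab
    simp only at hab
    by_contra hne
    rcases Nat.lt_or_gt_of_ne hne with hlt | hlt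
    · apply hinf (b - a) (by omega)
      rw [pow_sub _ hlt.le, hab, mul_inv_cancel]
    · apply hinf (a - b) (by omega)
      rw [pow_sub _ hlt.le, hab, mul_inv_cancel]
  exact Set.infinite_of_injective_forall_mem hinj hpow hfin

end Pool.Agent.H599R3.RH
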