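import Pool.Agent.H599R3.RH.Ar2
import Pool.Agent.H599R3.RH.Bs2
import Pool.Agent.H599R3.RH.Mal

/-!
# Relatively hyperbolic diagram groups
-/

set_option autoImplicit false

namespace Pool.Agent.H599R3.RH

open H540DG

variable {A : Type} {P : Pres A}

theorem dg_tf {w : List A} (g : Dg P w) (h1 : g ≠ 1) (n : ℕ) (hn : n ≠ 0) : g ^ n ≠ 1 := by
  intro h
  apply h1
  apply Subtype.ext
  apply torsion_free g.2 hn
  have := congrArg Subtype.val h
  simpa using this

/-- stabilizers of the vertices of the tree -/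
theorem stab_vertex {w : List A} (v : Cl P w (FV P)) :
    ∃ (g : U P) (p s : List A) (β : U P), Pi s β s ∧ β ≠ 1 ∧
      (∃ z : Dg P w, z.1 = g * wh p [] β * g⁻¹) ∧
      ∀ k : Dg P w, k • v = v → ∃ α, Pi p α p ∧ k.1 = g * wh [] s α * g⁻¹ := by
  induction v using Quotient.inductionOn with
  | h x =>
    obtain ⟨⟨g, p, i, q⟩, hx, hQ⟩ := x
    simp only at hx hQ
    have hnt : ¬ Tr P ((FV P).m i ++ q) := hQ.2
    unfold Tr at hnt
    push Not at hnt
    obtain ⟨β, hβ, hβ1⟩ := hnt
    refine ⟨g, p, (FV P).m i ++ q, β, hβ, hβ1, ?_, ?_⟩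
    · have h2 := hβ.wh p []
      simp only [List.append_nil] at h2
      exact ⟨⟨g * wh p [] β * g⁻¹, (Pi.trans hx h2).trans hx.symm⟩, rfl⟩
    · intro d hs
      obtain ⟨-, k, ⟨α, γ, hα, hγ, hk⟩, hg⟩ := Quotient.exact hs.symm
      simp only [actPt] at hα hγ hk hg
      have hγ1 : γ = 1 := hQ.1 γ hγ
      subst hγ1
      rw [map_one, mul_one] at hk
      refine ⟨α, hα, ?_⟩
      rw [← hk, ← hg]; group

theorem main (w : List A) {G : Type} [Group G] (e : G ≃* Dg P w) {ι : Type} (i0 : ι)
    (H : ι → Subgroup G) (hprop : ∀ i, H i ≠ ⊤) (hinf : Infinite (H i0)) (hH : IsHypRel H) :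
    Splits G := by
  by_contra hs
  have htf : ∀ g : G, g ≠ 1 → ∀ n : ℕ, n ≠ 0 → g ^ n ≠ 1 := by
    intro g hg n hn h
    apply dg_tf (e g) (by simpa using hg) n hn
    rw [← map_pow, h, map_one]
  have hmal : ∀ i, ∀ g h : G, h ∈ H i → h ≠ 1 → g⁻¹ * h * g ∈ H i → g ∈ H i :=
    fun i g h h1 h2 h3 => (malnormal hH i i g h h1 (htf h h2) h3).2
  obtain ⟨⟨h0, hh0⟩, hh0'⟩ := exists_ne (1 : H i0)
  have hh1 : h0 ≠ 1 := fun h => hh0' (Subtype.ext h)
  have hc : ¬ Cyc G := by
    rintro ⟨t, ht⟩
    apply hprop i0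
    rw [eq_top_iff]
    intro g _
    apply hmal i0 g h0 hh0 hh1
    obtain ⟨m, rfl⟩ := ht g
    obtain ⟨n, hn⟩ := ht h0
    rw [← hn]
    have : (t ^ m)⁻¹ * t ^ n * t ^ m = t ^ n := by
      rw [← zpow_neg, ← zpow_add, ← zpow_add]; congr 1; ring
    rw [this, hn]
    exact hh0
  have hw : ¬ Tr P w := by
    intro h
    apply hh1
    have : e h0 = 1 := Subtype.ext (h _ (e h0).2)
    simpa using this
  let iV : MulAction G (Cl P w (FV P)) := MulAction.compHom _ (e : G →* Dg P w)
  let iE : MulAction G (Cl P w (FE P)) := MulAction.compHom _ (e : G →* Dg P w)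
  have hsm : ∀ (g : G) (v : Cl P w (FV P)), g • v = e g • v := fun _ _ => rfl
  let T : Tree G (Cl P w (FV P)) (Cl P w (FE P)) :=
    { d0 := bd0 hw
      d1 := bd1 hw
      s0 := fun g x => bd0_smul hw (e g) x
      s1 := fun g x => bd1_smul hw (e g) x
      conn := fun {M} F hF u v => by
        obtain ⟨m, hm⟩ := tree_conn hw F hF
        rw [hm, hm]
      surj := fun φ => tree_surj hw φ }
  -- no peripheral subgroup meets a vertex stabilizer
  have hB : ∀ (i : ι) (v : Cl P w (FV P)) (h : G), h ∈ H i → h • v = v → h = 1 := by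
    intro i v h h1 h2
    by_contra h3
    apply hprop i
    rw [eq_top_iff]
    intro g _
    refine step2 htf hs hc (H i) (hmal i) ?_ T v h h3 h1 h2 g
    rintro v -
    obtain ⟨g0, p, s, β, hβ, hβ1, ⟨z, hz⟩, hst⟩ := stab_vertex v
    refine ⟨e.symm z, ?_, ?_⟩
    · intro h4
      have h5 : z = 1 := by simpa using h4
      rw [h5] at hz
      apply hβ1
      apply wh_left_inj p hβ
      have : wh p [] β = g0⁻¹ * (g0 * wh p [] β * g0⁻¹) * g0 := by group
      rw [this, ← hz]
      simp
    · intro k hk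
      obtain ⟨α, hα, hk2⟩ := hst (e k) hk
      apply e.injective
      rw [map_mul, map_mul, e.apply_symm_apply]
      apply Subtype.ext
      rw [Subgroup.coe_mul, Subgroup.coe_mul, hk2, hz]
      have h4 := interchange hα hβ
      calc g0 * wh [] s α * g0⁻¹ * (g0 * wh p [] β * g0⁻¹)
          = g0 * (wh [] s α * wh p [] β) * g0⁻¹ := by group
        _ = g0 * (wh p [] β * wh [] s α) * g0⁻¹ := by rw [h4]
        _ = _ := by group
  -- cohomological dimension of the peripheral subgroups
  have hvan : ∀ i, Van (H i) 1 := by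
    intro i
    have hne : Nonempty (Cl P w (FV P)) := ⟨vtx hw 1 w (Pi.refl w)⟩
    refine van_tree (n := 0) (G := H i) (Cl P w (FV P)) (Cl P w (FE P)) (bd0 hw) (bd1 hw)
      (fun g x => bd0_smul hw (e g) x) (fun g x => bd1_smul hw (e g) x)
      (fun M _ F hF => tree_conn hw F hF) (fun M _ φ => tree_surj hw φ) ?_ ?_
    · intro v
      have : Subsingleton (MulAction.stabilizer (H i) v) := by
        refine ⟨fun a b => ?_⟩
        have key : ∀ a : MulAction.stabilizer (H i) v, a = 1 := by
          rintro ⟨a, ha⟩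
          apply Subtype.ext
          apply Subtype.ext
          exact hB i v a a.2 ha
        rw [key a, key b]
      exact van_of_subsingleton _
    · intro x
      have : Subsingleton (MulAction.stabilizer (H i) x) := by
        refine ⟨fun a b => ?_⟩
        have key : ∀ a : MulAction.stabilizer (H i) x, a = 1 := by
          rintro ⟨a, ha⟩
          apply Subtype.ext
          apply Subtype.ext
          apply hB i (bd0 hw x) a a.2
          have h1 : (a : G) • bd0 hw x = bd0 hw ((a : G) • x) := (T.s0 (a : G) x).symm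
          rw [h1]
          have h2 : (a : G) • x = x := ha
          rw [h2]
        rw [key a, key b]
      exact van_of_subsingleton _
  by_cases hst : ∃ (v : Cl P w (FV P)) (k : G), k ≠ 1 ∧ k • v = v
  · obtain ⟨v, k, hk1, hk⟩ := hst
    obtain ⟨g0, p, s, β, hβ, hβ1, ⟨z, hz⟩, hst⟩ := stab_vertex v
    obtain ⟨α, hα, hk2⟩ := hst (e k) hk
    let ψ : G →* U P :=
      { toFun := fun k => g0⁻¹ * (e k).1 * g0
        map_one' := by simp
        map_mul' := fun a b => by
          rw [map_mul, Subgroup.coe_mul]; group }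
    have ha : ψ k = wh [] s α := by
      change g0⁻¹ * (e k).1 * g0 = _
      rw [hk2]; group
    have hb : ψ (e.symm z) = wh p [] β := by
      change g0⁻¹ * (e (e.symm z)).1 * g0 = _
      rw [e.apply_symm_apply, hz]; group
    have hψ : Function.Injective ψ := by
      intro x y hxy
      have h1 : g0⁻¹ * (e x).1 * g0 = g0⁻¹ * (e y).1 * g0 := hxy
      have h2 : (e x).1 = (e y).1 := by
        simpa using h1
      exact e.injective (Subtype.ext h2)
    refine area_contra hH hvan ψ k (e.symm z) ?_ p s α β hα ?_ hβ hβ1 ha hb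
    · apply hψ
      rw [map_mul, map_mul, ha, hb]
      exact interchange hα hβ
    · rintro rfl
      apply hk1
      apply hψ
      rw [ha, map_one, map_one]
  · push Not at hst
    rcases free_case htf T (fun v g hg => by
      by_contra h
      exact hst v g h hg) (vtx hw 1 w (Pi.refl w)) h0 hh1 with h | h
    · exact hs h
    · exact hc h

end Pool.Agent.H599R3.RH
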