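import Pool.Agent.H540R3.DG10

/-!
# Growth of crossing numbers
-/

set_option autoImplicit false

namespace Pool.Agent.H599R3.RH

open H540DG

/-! ### norms -/

section norm

variable {α β : Type}

/-- the `ℓ¹` norm -/
noncomputable def nm (f : α →₀ ℤ) : ℕ := ∑ a ∈ f.support, (f a).natAbs

theorem nm_of_subset {f : α →₀ ℤ} {s : Finset α} (h : f.support ⊆ s) :
    nm f = ∑ a ∈ s, (f a).natAbs := by
  unfold nm
  apply Finset.sum_subset h
  intro a _ ha
  rw [Finsupp.notMem_support_iff.1 ha]; rfl

theorem nm_zero : nm (0 : α →₀ ℤ) = 0 := by simp [nm]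

theorem nm_add (f g : α →₀ ℤ) : nm (f + g) ≤ nm f + nm g := by
  classical
  rw [nm_of_subset (s := f.support ∪ g.support) Finsupp.support_add,
    nm_of_subset (f := f) (s := f.support ∪ g.support) Finset.subset_union_left,
    nm_of_subset (f := g) (s := f.support ∪ g.support) Finset.subset_union_right,
    ← Finset.sum_add_distrib]
  apply Finset.sum_le_sum
  intro a _
  rw [Finsupp.add_apply]
  exact Int.natAbs_add_le _ _

theorem nm_neg (f : α →₀ ℤ) : nm (-f) = nm f := by
  unfold nm
  rw [Finsupp.support_neg]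
  apply Finset.sum_congr rfl
  intro a _
  simp

theorem nm_sub (f g : α →₀ ℤ) : nm (f - g) ≤ nm f + nm g := by
  have := nm_add f (-g)
  rwa [nm_neg, ← sub_eq_add_neg] at this

theorem nm_single (a : α) (z : ℤ) : nm (Finsupp.single a z) = z.natAbs := by
  classical
  rw [nm_of_subset (s := {a}) Finsupp.support_single_subset]
  simp

theorem nm_sum {ι : Type} (s : Finset ι) (F : ι → α →₀ ℤ) :
    nm (∑ i ∈ s, F i) ≤ ∑ i ∈ s, nm (F i) := by
  classical
  induction s using Finset.induction_on with
  | empty => simp [nm_zero]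
  | insert a s ha ih =>
    rw [Finset.sum_insert ha, Finset.sum_insert ha]
    exact (nm_add _ _).trans (by omega)

theorem nm_mapDomain (φ : α → β) (f : α →₀ ℤ) : nm (Finsupp.mapDomain φ f) ≤ nm f := by
  unfold Finsupp.mapDomain Finsupp.sum
  refine (nm_sum _ _).trans ?_
  simp only [nm_single]
  exact le_rfl

theorem nm_nsmul (n : ℕ) (f : α →₀ ℤ) : nm (n • f) = n * nm f := by
  rw [nm_of_subset (f := n • f) (s := f.support) Finsupp.support_smul]
  unfold nm
  rw [Finset.mul_sum]
  apply Finset.sum_congr rfl
  intro a _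
  rw [Finsupp.smul_apply, nsmul_eq_mul, Int.natAbs_mul, Int.natAbs_natCast]

theorem nm_pos {f : α →₀ ℤ} (h : f ≠ 0) : 1 ≤ nm f := by
  obtain ⟨a, ha⟩ := Finsupp.support_nonempty_iff.2 h
  unfold nm
  have h1 : (f a).natAbs ≤ ∑ a ∈ f.support, (f a).natAbs :=
    Finset.single_le_sum (f := fun a => (f a).natAbs) (fun _ _ => Nat.zero_le _) ha
  have h2 : (f a).natAbs ≠ 0 := by
    rw [Int.natAbs_ne_zero]
    exact Finsupp.mem_support_iff.1 ha
  omega

theorem card_le_nm (f : α →₀ ℤ) : f.support.card ≤ nm f := by
  unfold nm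
  rw [Finset.card_eq_sum_ones]
  apply Finset.sum_le_sum
  intro a ha
  have h2 : (f a).natAbs ≠ 0 := by
    rw [Int.natAbs_ne_zero]
    exact Finsupp.mem_support_iff.1 ha
  omega

end norm

/-! ### coinvariants -/

section coinv

variable {K Y : Type} [Group K] [MulAction K Y]

/-- the operator `T - 1` -/
noncomputable def tm (g : K) : (Y →₀ ℤ) →+ (Y →₀ ℤ) :=
  Finsupp.mapDomain.addMonoidHom (g • ·) - AddMonoidHom.id _

theorem tm_apply (g : K) (v : Y →₀ ℤ) : tm g v = Finsupp.mapDomain (g • ·) v - v := rfl

theorem single_mem (g : K) (γ : K) (hγ : γ ∈ Subgroup.zpowers g) (a : Y) (z : ℤ) :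
    Finsupp.single (γ • a) z - Finsupp.single a z ∈ (tm g : (Y →₀ ℤ) →+ (Y →₀ ℤ)).range := by
  let S : Subgroup K :=
    { carrier := {γ | ∀ (a : Y) (z : ℤ), Finsupp.single (γ • a) z - Finsupp.single a z ∈
        (tm g : (Y →₀ ℤ) →+ (Y →₀ ℤ)).range}
      one_mem' := by
        intro a z
        rw [one_smul, sub_self]
        exact zero_mem _
      mul_mem' := by
        intro x y hx hy a z
        have := add_mem (hx (y • a) z) (hy a z)
        rw [mul_smul]
        convert this using 1
        abel
      inv_mem' := by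
        intro x hx a z
        have := neg_mem (hx (x⁻¹ • a) z)
        rw [smul_inv_smul] at this
        convert this using 1
        abel }
  have hg : g ∈ S := by
    intro a z
    refine ⟨Finsupp.single a z, ?_⟩
    rw [tm_apply, Finsupp.mapDomain_single]
  exact (Subgroup.zpowers_le.2 hg) hγ a z

theorem coinv (g : K) (f : Y →₀ ℤ)
    (hf : Finsupp.mapDomain (Quotient.mk (MulAction.orbitRel (Subgroup.zpowers g) Y)) f = 0) :
    ∃ v : Y →₀ ℤ, f = Finsupp.mapDomain (g • ·) v - v := by
  let q : Y → Quotient (MulAction.orbitRel (Subgroup.zpowers g) Y) := Quotient.mk _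
  have key : ∀ f : Y →₀ ℤ, f - Finsupp.mapDomain (fun y => (q y).out) f ∈
      (tm g : (Y →₀ ℤ) →+ (Y →₀ ℤ)).range := by
    intro f
    induction f using Finsupp.induction_linear with
    | zero =>
      rw [Finsupp.mapDomain_zero, sub_self]
      exact zero_mem _
    | add f f' h h' =>
      rw [Finsupp.mapDomain_add]
      have := add_mem h h'
      convert this using 1
      abel
    | single a z =>
      rw [Finsupp.mapDomain_single]
      have h1 : q (q a).out = q a := Quotient.out_eq _
      have h2 : (MulAction.orbitRel (Subgroup.zpowers g) Y) a (q a).out := Quotient.exact h1.symm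
      obtain ⟨⟨γ, hγ⟩, h3⟩ := h2
      have h4 : γ • (q a).out = a := h3
      have := single_mem g γ hγ (q a).out z
      rwa [h4] at this
  have h1 := key f
  have h2 : Finsupp.mapDomain (fun y => (q y).out) f = 0 := by
    have : (fun y => (q y).out) = Quotient.out ∘ q := rfl
    rw [this, Finsupp.mapDomain_comp]
    change Finsupp.mapDomain _ (Finsupp.mapDomain (Quotient.mk _) f) = 0
    rw [hf, Finsupp.mapDomain_zero]
  rw [h2, sub_zero] at h1
  obtain ⟨v, hv⟩ := h1
  exact ⟨v, by rw [← hv, tm_apply]⟩

end coinv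

/-! ### the action on hyperplanes -/

section

variable {A : Type} {P : Pres A}

instance hypAction : MulAction (U P) (Hyp P) where
  smul k := Quotient.map (fun x => (k * x.1, x.2)) (by
    rintro x y ⟨h1, h, h2, h3⟩
    exact ⟨h1, h, h2, by simp only; rw [h3, mul_assoc]⟩)
  one_smul c := by
    induction c using Quotient.inductionOn with
    | h x =>
      change Quotient.mk _ (1 * x.1, x.2) = _
      rw [one_mul]
  mul_smul d d' c := by
    induction c using Quotient.inductionOn with
    | h x =>
      change Quotient.mk _ (d * d' * x.1, x.2) = Quotient.mk _ (d * (d' * x.1), x.2)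
      rw [mul_assoc]

theorem smul_hyp (k g : U P) (e : Edge P) : k • hyp g e = hyp (k * g) e := rfl

/-- the relation of a hyperplane -/
def rty (H : Hyp P) : P.rels :=
  Quotient.lift (fun x : U P × Edge P => x.2.r) (fun x y (h : Par x y) => h.1) H

theorem rty_hyp (g : U P) (e : Edge P) : rty (hyp g e) = e.r := rfl

theorem rty_smul (k : U P) (H : Hyp P) : rty (k • H) = rty H := by
  induction H using Quotient.inductionOn with
  | h x => rfl

theorem rty_ohyp (g : U P) (x : OE P) : rty (ohyp g x) = x.r := rfl

theorem lo_smul (k : U P) (H : Hyp P) : (k • H).lo = th k H.lo := by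
  induction H using Quotient.inductionOn with
  | h x =>
    change th (k * x.1) _ = th k (th x.1 _)
    rw [map_mul, RelIso.mul_apply]

theorem hi_smul (k : U P) (H : Hyp P) : (k • H).hi = th k H.hi := by
  induction H using Quotient.inductionOn with
  | h x =>
    change th (k * x.1) _ = th k (th x.1 _)
    rw [map_mul, RelIso.mul_apply]

theorem cr_equiv (k : U P) (H : Hyp P) (g : U P) :
    cr (k • H) (k * g) - cr (k • H) k = cr H g - cr H 1 := by
  classical
  have hiff : ∀ g e, hyp (k * g) e = k • H ↔ hyp g e = H := by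
    intro g e
    rw [← smul_hyp]
    exact smul_left_cancel_iff k
  induction g using U_induction with
  | h1 => simp
  | hm g e ih =>
    have h1 := cr_gen (k • H) (k * g) e
    have h2 := cr_gen H g e
    rw [← mul_assoc, h1, h2]
    simp only [hiff]
    linarith
  | hi g e ih =>
    have h1 := cr_gen (k • H) (k * (g * (gen e)⁻¹)) e
    have h2 := cr_gen H (g * (gen e)⁻¹) e
    rw [inv_mul_cancel_right] at h2
    rw [mul_assoc, inv_mul_cancel_right] at h1
    simp only [hiff] at h1
    linarith

theorem cr_fin (g : U P) : (Function.support (fun H : Hyp P => cr H g - cr H 1)).Finite := by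
  classical
  induction g using U_induction with
  | h1 => simp
  | hm g e ih =>
    apply (ih.insert (hyp g e)).subset
    intro H hH
    by_cases h : hyp g e = H
    · left; exact h.symm
    · right
      rw [Function.mem_support] at hH ⊢
      rw [cr_gen, if_neg h, add_zero] at hH
      exact hH
  | hi g e ih =>
    apply (ih.insert (hyp (g * (gen e)⁻¹) e)).subset
    intro H hH
    by_cases h : hyp (g * (gen e)⁻¹) e = H
    · left; exact h.symm
    · right
      rw [Function.mem_support] at hH ⊢
      have h2 := cr_gen H (g * (gen e)⁻¹) e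
      rw [inv_mul_cancel_right, if_neg h, add_zero] at h2
      rw [h2]
      exact hH

/-- the crossing cocycle -/
noncomputable def uu (g : U P) : Hyp P →₀ ℤ :=
  Finsupp.ofSupportFinite (fun H => cr H g - cr H 1) (cr_fin g)

theorem uu_apply (g : U P) (H : Hyp P) : uu g H = cr H g - cr H 1 := rfl

theorem mapDomain_smul_apply (k : U P) (f : Hyp P →₀ ℤ) (H : Hyp P) :
    Finsupp.mapDomain (k • ·) f H = f (k⁻¹ • H) := by
  have := Finsupp.mapDomain_apply (f := fun H : Hyp P => k • H) (MulAction.injective k) f (k⁻¹ • H)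
  simp only [smul_inv_smul] at this
  exact this

theorem uu_mul (g g' : U P) : uu (g * g') = uu g + Finsupp.mapDomain (g • ·) (uu g') := by
  ext H
  rw [Finsupp.add_apply, mapDomain_smul_apply, uu_apply, uu_apply, uu_apply]
  have := cr_equiv g (g⁻¹ • H) g'
  rw [smul_inv_smul] at this
  linarith

theorem uu_one : uu (1 : U P) = 0 := by
  ext H
  rw [uu_apply, sub_self]; rfl

theorem mem_rt_hys (L : List (OE P)) : ∀ (g : U P), ∀ x ∈ L, ∃ H ∈ hys g L, rty H = x.r := by
  induction L with
  | nil => intro g x hx; simp at hx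
  | cons y L ih =>
    intro g x hx
    rcases List.mem_cons.1 hx with rfl | hx
    · exact ⟨ohyp g x, by simp [hys], rty_ohyp g x⟩
    · obtain ⟨H, h1, h2⟩ := ih (g * y.val) x hx
      exact ⟨H, by simp [hys, h1], h2⟩

/-- a path all of whose hyperplanes are crossed by the element -/
theorem good_path {W W' : List A} {g : U P} (hg : Pi W g W') :
    ∃ L, IsPath W L W' ∧ pv L = g ∧ L.length ≤ nm (uu g) ∧
      ∀ x ∈ L, ∃ H ∈ (uu g).support, rty H = x.r := by
  classical
  obtain ⟨L, h1, h2, h3⟩ := exists_min_path hg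
  have hn : (hys 1 L).Nodup := by
    by_contra hcon
    obtain ⟨L1, x, D, y, L2, hL, hd⟩ := exists_dip L 1 hcon
    rw [one_mul] at hd
    rw [hL] at h1
    obtain ⟨L', f1, f2, f3⟩ := shorten ((th (pv L1)).strictMono) h1 hd
    have := h3 L' f1 (by rw [f3, ← hL, h2])
    rw [hL] at this
    omega
  have hmem : ∀ H ∈ hys 1 L, H ∈ (uu g).support := by
    intro H hH
    rw [Finsupp.mem_support_iff, uu_apply]
    have := cr_mem H 1 L hn hH
    rw [one_mul, h2] at this
    exact sub_ne_zero.2 this
  refine ⟨L, h1, h2, ?_, ?_⟩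
  · rw [← hys_length 1 L, ← List.toFinset_card_of_nodup hn]
    refine le_trans (Finset.card_le_card ?_) (card_le_nm _)
    intro H hH
    exact hmem H (List.mem_toFinset.1 hH)
  · intro x hx
    obtain ⟨H, e1, e2⟩ := mem_rt_hys L 1 x hx
    exact ⟨H, hmem H e1, e2⟩

theorem fin_edges {R : Set P.rels} (hR : R.Finite) (W : List A) :
    {x : OE P | x.src = W ∧ x.r ∈ R}.Finite := by
  let F : (ℕ × P.rels) × (Bool × ℕ) → OE P := fun z => ⟨W.take z.1.1, z.1.2, z.2.1, W.drop z.2.2⟩
  have h1 : (((Set.Iic W.length) ×ˢ R) ×ˢ ((Set.univ : Set Bool) ×ˢ (Set.Iic W.length))).Finite :=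
    ((Set.finite_Iic _).prod hR).prod (Set.finite_univ.prod (Set.finite_Iic _))
  apply (h1.image F).subset
  rintro x ⟨hx, hr⟩
  refine ⟨((x.a.length, x.r), (x.s, (x.a ++ x.top).length)), ⟨⟨?_, hr⟩, ⟨trivial, ?_⟩⟩, ?_⟩
  · rw [← hx]; simp [OE.src]
  · rw [← hx]; simp [OE.src]
  · simp only [F]
    have e1 : W.take x.a.length = x.a := by rw [← hx]; simp [OE.src]
    have e2 : W.drop (x.a ++ x.top).length = x.c := by
      rw [← hx]
      have : x.src = (x.a ++ x.top) ++ x.c := by simp [OE.src]
      rw [this, List.drop_left]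
    rw [e1, e2]

theorem fin_paths {R : Set P.rels} (hR : R.Finite) (n : ℕ) : ∀ W : List A,
    {L : List (OE P) | L.length ≤ n ∧ (∀ x ∈ L, x.r ∈ R) ∧ ∃ W', IsPath W L W'}.Finite := by
  induction n with
  | zero =>
    intro W
    apply (Set.finite_singleton []).subset
    rintro L ⟨h, -⟩
    exact List.eq_nil_of_length_eq_zero (by omega)
  | succ n ih =>
    intro W
    have h1 : (⋃ x ∈ {x : OE P | x.src = W ∧ x.r ∈ R}, (fun L => x :: L) ''
        {L : List (OE P) | L.length ≤ n ∧ (∀ y ∈ L, y.r ∈ R) ∧ ∃ W', IsPath x.tgt L W'}).Finite :=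
      (fin_edges hR W).biUnion (fun x _ => (ih x.tgt).image _)
    apply (h1.insert []).subset
    rintro L ⟨h2, h3, W', h4⟩
    cases L with
    | nil => left; rfl
    | cons x L =>
      right
      obtain ⟨h5, h6⟩ := h4
      simp only [Set.mem_iUnion]
      exact ⟨x, ⟨h5.symm, h3 x (by simp)⟩, L, ⟨by simpa using h2,
        fun y hy => h3 y (by simp [hy]), W', h6⟩, rfl⟩

/-- **Linear growth** of crossing numbers. -/
theorem growth {W : List A} {g : U P} (hg : Pi W g W) (h1 : g ≠ 1) (n : ℕ) :
    n ≤ nm (uu (g ^ n)) := by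
  classical
  let q : Hyp P → Quotient (MulAction.orbitRel (Subgroup.zpowers g) (Hyp P)) := Quotient.mk _
  have hq : q ∘ (g • ·) = q := by
    funext H
    apply Quotient.sound
    exact ⟨⟨g, Subgroup.mem_zpowers g⟩, rfl⟩
  by_cases hf : Finsupp.mapDomain q (uu g) = 0
  · exfalso
    obtain ⟨v, hv⟩ := coinv g (uu g) hf
    have hn : ∀ n : ℕ, uu (g ^ n) = Finsupp.mapDomain ((g ^ n) • ·) v - v := by
      intro n
      induction n with
      | zero =>
        rw [pow_zero, uu_one]
        simp only [one_smul]
        have : Finsupp.mapDomain (fun x : Hyp P => x) v = v := Finsupp.mapDomain_id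
        rw [this, sub_self]
      | succ n ih =>
        rw [pow_succ, uu_mul, ih, hv]
        have e1 : Finsupp.mapDomain (fun H : Hyp P => (g ^ n) • H)
            (Finsupp.mapDomain (fun H : Hyp P => g • H) v - v) =
            Finsupp.mapDomain (fun H : Hyp P => (g ^ n * g) • H) v -
              Finsupp.mapDomain (fun H : Hyp P => (g ^ n) • H) v := by
          have e2 := map_sub (Finsupp.mapDomain.addMonoidHom (fun H : Hyp P => (g ^ n) • H))
            (Finsupp.mapDomain (fun H : Hyp P => g • H) v) v
          refine Eq.trans e2 ?_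
          congr 1
          change Finsupp.mapDomain _ (Finsupp.mapDomain _ v) = _
          rw [← Finsupp.mapDomain_comp]
          congr 1
          funext H
          simp [mul_smul]
        rw [e1]
        abel
    let R : Set P.rels := rty '' (v.support : Set (Hyp P))
    have hR : R.Finite := (Finset.finite_toSet _).image _
    have hfin := fin_paths hR (nm v + nm v) W
    have hmap : ∀ n : ℕ, g ^ n ∈ pv '' {L : List (OE P) | L.length ≤ nm v + nm v ∧
        (∀ x ∈ L, x.r ∈ R) ∧ ∃ W', IsPath W L W'} := by
      intro n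
      obtain ⟨L, e1, e2, e3, e4⟩ := good_path ((Dg P W).pow_mem (x := g) hg n)
      refine ⟨L, ⟨?_, ?_, W, e1⟩, e2⟩
      · refine e3.trans ?_
        rw [hn]
        refine (nm_sub _ _).trans ?_
        have := nm_mapDomain ((g ^ n) • ·) v
        omega
      · intro x hx
        obtain ⟨H, f1, f2⟩ := e4 x hx
        rw [← f2, hn] at *
        rw [Finsupp.mem_support_iff, Finsupp.sub_apply, mapDomain_smul_apply] at f1
        by_cases h0 : v H = 0
        · rw [h0, sub_zero] at f1
          refine ⟨(g ^ n)⁻¹ • H, ?_, rty_smul _ _⟩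
          rw [Finset.mem_coe, Finsupp.mem_support_iff]
          exact f1
        · exact ⟨H, by rw [Finset.mem_coe, Finsupp.mem_support_iff]; exact h0, rfl⟩
    have hninj : ¬ Function.Injective (fun n : ℕ => g ^ n) := by
      intro hinj
      exact Set.infinite_of_injective_forall_mem hinj hmap (hfin.image _)
    apply hninj
    intro a b hab
    have hab' : g ^ a = g ^ b := hab
    by_contra hne
    rcases lt_or_gt_of_ne hne with hl | hl
    · apply h1
      apply torsion_free hg (n := b - a) (by omega)
      have : g ^ b = g ^ (b - a) * g ^ a := by rw [← pow_add]; congr 1; omega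
      rw [hab'] at this
      exact right_eq_mul.1 this
    · apply h1
      apply torsion_free hg (n := a - b) (by omega)
      have : g ^ a = g ^ (a - b) * g ^ b := by rw [← pow_add]; congr 1; omega
      rw [hab'] at this
      exact right_eq_mul.1 this
  · have hn : Finsupp.mapDomain q (uu (g ^ n)) = n • Finsupp.mapDomain q (uu g) := by
      induction n with
      | zero => rw [pow_zero, uu_one, Finsupp.mapDomain_zero, zero_smul]
      | succ n ih =>
        rw [pow_succ', uu_mul, Finsupp.mapDomain_add, ← Finsupp.mapDomain_comp, hq, ih,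
          add_smul, one_smul, add_comm]
    have h2 := nm_mapDomain q (uu (g ^ n))
    rw [hn, nm_nsmul] at h2
    have h3 := nm_pos hf
    calc n = n * 1 := (mul_one n).symm
      _ ≤ n * nm (Finsupp.mapDomain q (uu g)) := Nat.mul_le_mul_left _ h3
      _ ≤ _ := h2

end

end Pool.Agent.H599R3.RH
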